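import Pool.Agent.U307.RAD.Stm
import Pool.Agent.U588.RB.EB
import Pool.Agent.Y282.RB.Fin
import Pool.Agent.Y282.RB.K

/-! Project RAD: the type `2 n` for `n = 2` or `p ≥ exp (32 n²)`, from the theorems of helper282 and
helper588. -/

set_option autoImplicit false

open MeasureTheory Filter Topology Set
open scoped ENNReal SchwartzMap ComplexConjugate

namespace Pool.Agent.U307.RAD.Ext3

noncomputable def K (n : ℕ) (p : ℝ) : ℝ :=
  (ascPochhammer ℝ n).eval (1 - 1 / p) / (ascPochhammer ℝ n).eval (1 / p)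

theorem ext (n : ℕ) (hn : 1 ≤ n) (p : ℝ) (hp : (n = 2 ∧ 2 ≤ p) ∨ Real.exp (32 * (n : ℝ) ^ 2) ≤ p)
    (f : SchwartzMap ℂ ℂ) (hf : ∀ a z : ℂ, ‖a‖ = 1 → f (a * z) = a ^ (2 * n) * f z) :
    eLpNorm (TS n f) (ENNReal.ofReal p) (volume : Measure ℂ)
        ≤ ENNReal.ofReal (K n p) * eLpNorm f (ENNReal.ofReal p) (volume : Measure ℂ) := by
  have hp2 : 2 ≤ p := by
    rcases hp with hp | hp
    · exact hp.2
    · have := (Pool.Agent.U588.RB.big hn hp).1
      have hn1 : (1 : ℝ) ≤ (n : ℝ) ^ 2 := one_le_pow₀ (by exact_mod_cast hn)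
      linarith
  have hstar : Pool.Agent.Y282.RB.Star n p := by
    rcases hp with hp | hp
    · rw [hp.1]
      exact Pool.Agent.Y282.RB.Fin.star2 p hp.2
    · exact Pool.Agent.U588.RB.star_big hn hp
  have hT : TS n f = Pool.Agent.Y282.RB.Tn n f := rfl
  have hK : K n p = Pool.Agent.Y282.RB.Cn p n := (Pool.Agent.Y282.RB.K3.main n p (by linarith)).symm
  have hpos : 0 < Pool.Agent.Y282.RB.Cn p n := by
    unfold Pool.Agent.Y282.RB.Cn
    refine Finset.prod_pos (fun j _ => ?_)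
    have h1 : (1 : ℝ) / p < 1 := by
      rw [div_lt_one (by linarith)]; linarith
    have h2 : (0 : ℝ) < 1 / p := by positivity
    have h3 : (0 : ℝ) ≤ (j : ℝ) := Nat.cast_nonneg j
    apply div_pos <;> linarith
  rw [hT, hK]
  exact Pool.Agent.Y282.RB.K.main n p (Pool.Agent.Y282.RB.Cn p n) hn hp2 hpos.le
    (fun g hg hs => Pool.Agent.Y282.RB.Fin.plane n p hn hp2 hstar g hg hs) f
    (fun a z ha => hf a z ha)

end Pool.Agent.U307.RAD.Ext3
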