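import Pool.Agent.Y282.RB.Stm
import Pool.Agent.Y282.RB.K3

/-! Project RAD: comparison of the two constants; the proof is the one of helper320 in
`MP_3dd6d4_an.AngularTypes`. -/

set_option autoImplicit false

namespace Pool.Agent.U307.RAD.UpK

/-- `artanh x ≤ c artanh y` for `x = c y`, `0 ≤ c ≤ 1`, `0 ≤ y < 1` -/
theorem artanh_le {c y : ℝ} (hc0 : 0 ≤ c) (hc1 : c ≤ 1) (hy0 : 0 ≤ y) (hy1 : y < 1) :
    Real.log (1 + c * y) - Real.log (1 - c * y) ≤ c * (Real.log (1 + y) - Real.log (1 - y)) := by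
  have hx0 : 0 ≤ c * y := mul_nonneg hc0 hy0
  have hxy : c * y ≤ y := by nlinarith
  have h1 := Real.hasSum_log_sub_log_of_abs_lt_one (x := c * y)
    (by rw [abs_of_nonneg hx0]; linarith)
  have h2 := (Real.hasSum_log_sub_log_of_abs_lt_one (x := y)
    (by rw [abs_of_nonneg hy0]; linarith)).mul_left c
  refine hasSum_le (fun k => ?_) h1 h2
  have h3 : (c * y) ^ (2 * k) ≤ y ^ (2 * k) := pow_le_pow_left₀ hx0 hxy _
  have h4 : (c * y) ^ (2 * k + 1) ≤ c * y ^ (2 * k + 1) := by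
    rw [pow_succ, pow_succ]
    calc (c * y) ^ (2 * k) * (c * y) ≤ y ^ (2 * k) * (c * y) :=
          mul_le_mul_of_nonneg_right h3 hx0
      _ = c * (y ^ (2 * k) * y) := by ring
  have h5 : (0 : ℝ) ≤ 2 * (1 / (2 * (k : ℝ) + 1)) := by positivity
  calc 2 * (1 / (2 * (k : ℝ) + 1)) * (c * y) ^ (2 * k + 1)
      ≤ 2 * (1 / (2 * (k : ℝ) + 1)) * (c * y ^ (2 * k + 1)) := mul_le_mul_of_nonneg_left h4 h5
    _ = c * (2 * (1 / (2 * (k : ℝ) + 1)) * y ^ (2 * k + 1)) := by ring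

/-- `(j + 1 - t) / (j + t) ≤ ((j + 1) / j) ^ (1 - 2 t)` -/
theorem factor_le {j t : ℝ} (hj : 0 < j) (ht0 : 0 ≤ t) (ht1 : t ≤ 1 / 2) :
    (j + 1 - t) / (j + t) ≤ ((j + 1) / j) ^ (1 - 2 * t) := by
  have hy1 : 1 / (2 * j + 1) < 1 := by
    rw [div_lt_one (by linarith)]
    linarith
  have h := artanh_le (c := 1 - 2 * t) (y := 1 / (2 * j + 1)) (by linarith) (by linarith)
    (by positivity) hy1
  have hd : (2 * j + 1) ≠ 0 := by positivity
  have e1 : 1 + (1 - 2 * t) * (1 / (2 * j + 1)) = 2 * (j + 1 - t) / (2 * j + 1) := by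
    field_simp
    ring
  have e2 : 1 - (1 - 2 * t) * (1 / (2 * j + 1)) = 2 * (j + t) / (2 * j + 1) := by
    field_simp
    ring
  have e3 : 1 + 1 / (2 * j + 1) = 2 * (j + 1) / (2 * j + 1) := by
    field_simp
    ring
  have e4 : 1 - 1 / (2 * j + 1) = 2 * j / (2 * j + 1) := by
    field_simp
    ring
  rw [e1, e2, e3, e4] at h
  have p1 : 0 < j + 1 - t := by linarith
  have p2 : 0 < j + t := by linarith
  have p3 : 0 < j + 1 := by linarith
  have p5 : 0 < 2 * j + 1 := by linarith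
  rw [← Real.log_div (by positivity) (by positivity),
    ← Real.log_div (by positivity) (by positivity)] at h
  have e5 : 2 * (j + 1 - t) / (2 * j + 1) / (2 * (j + t) / (2 * j + 1)) =
      (j + 1 - t) / (j + t) := by
    field_simp
  have e6 : 2 * (j + 1) / (2 * j + 1) / (2 * j / (2 * j + 1)) = (j + 1) / j := by
    field_simp
  rw [e5, e6] at h
  rw [← Real.log_le_log_iff (by positivity) (by positivity), Real.log_rpow (by positivity)]
  exact h

/-- the upper bound of `K` -/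
theorem upper {n : ℕ} (hn : 1 ≤ n) {p : ℝ} (hp : 2 ≤ p) :
    Pool.Agent.Y282.RB.Cn p n ≤ (n : ℝ) ^ (1 - 2 / p) * (p - 1) := by
  have ht0 : (0 : ℝ) < 1 / p := by positivity
  have ht1 : 1 / p ≤ 1 / 2 := one_div_le_one_div_of_le (by norm_num) hp
  have hp0 : p ≠ 0 := by linarith
  induction n, hn using Nat.le_induction with
  | base =>
    unfold Pool.Agent.Y282.RB.Cn
    rw [Finset.prod_range_one, Nat.cast_one, Real.one_rpow, one_mul, Nat.cast_zero, zero_add,
      zero_add]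
    apply le_of_eq
    field_simp
  | succ n hn ih =>
    have hn0 : (0 : ℝ) < n := by exact_mod_cast hn
    have h1 := factor_le (j := n) (t := 1 / p) hn0 ht0.le ht1
    have h2 : Pool.Agent.Y282.RB.Cn p (n + 1) =
        Pool.Agent.Y282.RB.Cn p n * (((n : ℝ) + 1 - 1 / p) / ((n : ℝ) + 1 / p)) := by
      unfold Pool.Agent.Y282.RB.Cn
      rw [Finset.prod_range_succ]
    have h3 : 0 ≤ ((n : ℝ) + 1 - 1 / p) / ((n : ℝ) + 1 / p) := by
      apply div_nonneg <;> linarith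
    have h4 : (0 : ℝ) ≤ (n : ℝ) ^ (1 - 2 / p) * (p - 1) := by
      apply mul_nonneg (by positivity)
      linarith
    have e : 1 - 2 * (1 / p) = 1 - 2 / p := by ring
    rw [e] at h1
    rw [h2]
    calc Pool.Agent.Y282.RB.Cn p n * (((n : ℝ) + 1 - 1 / p) / ((n : ℝ) + 1 / p))
        ≤ ((n : ℝ) ^ (1 - 2 / p) * (p - 1)) * (((n : ℝ) + 1 - 1 / p) / ((n : ℝ) + 1 / p)) :=
          mul_le_mul_of_nonneg_right ih h3
      _ ≤ ((n : ℝ) ^ (1 - 2 / p) * (p - 1)) * (((n : ℝ) + 1) / n) ^ (1 - 2 / p) :=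
          mul_le_mul_of_nonneg_left h1 h4
      _ = ((n + 1 : ℕ) : ℝ) ^ (1 - 2 / p) * (p - 1) := by
          rw [Real.div_rpow (by linarith) hn0.le]
          push_cast
          have : (n : ℝ) ^ (1 - 2 / p) ≠ 0 := by positivity
          field_simp


theorem up (n : ℕ) (hn : 1 ≤ n) (p : ℝ) (hp : 2 ≤ p) :
    (ascPochhammer ℝ n).eval (1 - 1 / p) / (ascPochhammer ℝ n).eval (1 / p) ≤
      (n : ℝ) ^ (1 - 2 / p) * (p - 1) := by
  have h := (Pool.Agent.Y282.RB.K3.main n p (by linarith)).symm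
  rw [h]
  exact upper hn hp

end Pool.Agent.U307.RAD.UpK
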