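import Pool.Agent.U307.RAD.Stm

/-! Project RAD: assembly. -/

set_option autoImplicit false

open MeasureTheory Filter Topology Set
open scoped ENNReal SchwartzMap ComplexConjugate

namespace Pool.Agent.U307.RAD

theorem KI_pos (n l : ℕ) : 1 ≤ KI n l := by
  unfold KI
  have : 0 ≤ ∫ r in (0 : ℝ)..1, |qq n l r| :=
    intervalIntegral.integral_nonneg (by norm_num) fun r _ => abs_nonneg _
  linarith

theorem KP_pos (n l : ℕ) (P : ℝ) : 1 ≤ KP n l P := by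
  unfold KP
  have : 0 ≤ ∫ r in (0 : ℝ)..1, |uu n l r| * r ^ (1 - 2 / P) :=
    intervalIntegral.integral_nonneg (by norm_num) fun r hr =>
      mul_nonneg (abs_nonneg _) (Real.rpow_nonneg hr.1 _)
  linarith

/-- the bound with the limit constant -/
theorem lim_bound (hLP : S_LP) (hL2 : S_L2) (hLIN : S_LIN) (hRT : S_RT) (hLIM : S_LIM) (n l : ℕ) (p : ℝ)
    (hn : 1 ≤ n) (hp : 2 ≤ p) (f : SchwartzMap ℂ ℂ) :
    ∫⁻ z, ‖AA n l f z‖ₑ ^ p ≤ ENNReal.ofReal (KI n l ^ (1 - 2 / p)) ^ p * ∫⁻ z, ‖f z‖ₑ ^ p := by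
  rcases hp.eq_or_lt with h | hp2
  · rw [← h]
    norm_num
    simpa using hL2 n l f
  obtain ⟨h1, h2, h3⟩ := hLIN n l
  set τ : ℝ → ℝ := fun P => (1 / 2 - 1 / p) / (1 / 2 - 1 / P) with hτ
  have hev : ∀ᶠ P in atTop, ∫⁻ z, ‖AA n l f z‖ₑ ^ p ≤
      ENNReal.ofReal (KP n l P ^ τ P) ^ p * ∫⁻ z, ‖f z‖ₑ ^ p := by
    filter_upwards [eventually_gt_atTop p] with P hP
    have hP2 : 2 < P := by linarith
    have hne : (1 : ℝ) / 2 - 1 / P ≠ 0 := by
      have : (1 : ℝ) / P < 1 / 2 := one_div_lt_one_div_of_lt (by norm_num) hP2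
      linarith
    have hth : 1 / p = (1 - τ P) / 2 + τ P / P := by
      have e : τ P * (1 / 2 - 1 / P) = 1 / 2 - 1 / p := by
        rw [hτ]
        exact div_mul_cancel₀ _ hne
      have : τ P / P = τ P * (1 / P) := by ring
      rw [this]
      linarith
    have key := hRT (AA n l) h1 h2 h3 2 P p (τ P) 1 (KP n l P) le_rfl hp2 hP hth one_pos
      (by linarith [KP_pos n l P]) (fun g => by simpa using hL2 n l g) (fun g => hLP n l hn P hP2 g) f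
    simpa using key
  have h4 : Tendsto τ atTop (𝓝 (1 - 2 / p)) := by
    have h5 : Tendsto (fun P : ℝ => (1 / 2 - 1 / p) / (1 / 2 - 1 / P)) atTop
        (𝓝 ((1 / 2 - 1 / p) / (1 / 2 - 0))) := by
      refine Tendsto.div tendsto_const_nhds (Tendsto.sub tendsto_const_nhds ?_) (by norm_num)
      have h7 : Tendsto (fun P : ℝ => P⁻¹) atTop (𝓝 0) := tendsto_inv_atTop_zero
      exact h7.congr fun P => (one_div P).symm
    have e : (1 / 2 - 1 / p) / (1 / 2 - 0) = 1 - 2 / p := by ring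
    rw [e] at h5
    exact h5
  have h5 : Tendsto (fun P => KP n l P ^ τ P) atTop (𝓝 (KI n l ^ (1 - 2 / p))) :=
    (hLIM n l).rpow h4 (Or.inl (by linarith [KI_pos n l]))
  have h6 : Tendsto (fun P => ENNReal.ofReal (KP n l P ^ τ P) ^ p * ∫⁻ z, ‖f z‖ₑ ^ p) atTop
      (𝓝 (ENNReal.ofReal (KI n l ^ (1 - 2 / p)) ^ p * ∫⁻ z, ‖f z‖ₑ ^ p)) := by
    refine ENNReal.Tendsto.mul_const ?_ (Or.inl ?_)
    · exact ((ENNReal.continuous_rpow_const (y := p)).tendsto _).comp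
        ((ENNReal.continuous_ofReal.tendsto _).comp h5)
    · have : 0 < KI n l ^ (1 - 2 / p) := Real.rpow_pos_of_pos (by linarith [KI_pos n l]) _
      exact (ENNReal.rpow_pos (ENNReal.ofReal_pos.2 this) ENNReal.ofReal_ne_top).ne'
  exact ge_of_tendsto h6 hev

theorem fin (hLP : S_LP) (hL2 : S_L2) (hLIN : S_LIN) (hRT : S_RT) (hLIM : S_LIM) (hROT : S_ROT)
    (hL1 : S_L1) : S_FIN := by
  intro n l p hn hp f hf
  have hp0 : 0 < p := by linarith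
  have hb := lim_bound hLP hL2 hLIN hRT hLIM n l p hn hp f
  have e1 : ∀ z, AA n l f z = TS n f z := hROT n l f hf
  simp only [e1] at hb
  have hK : KI n l ^ (1 - 2 / p) ≤ (4 * (n : ℝ) ^ (3 / 4 : ℝ)) ^ (1 - 2 / p) := by
    refine Real.rpow_le_rpow (by linarith [KI_pos n l]) (hL1 n l hn) ?_
    rw [sub_nonneg, div_le_one hp0]
    exact hp
  have hb2 : ∫⁻ z, ‖TS n f z‖ₑ ^ p ≤
      ENNReal.ofReal ((4 * (n : ℝ) ^ (3 / 4 : ℝ)) ^ (1 - 2 / p)) ^ p * ∫⁻ z, ‖f z‖ₑ ^ p := by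
    refine hb.trans ?_
    gcongr
  have hp' : ENNReal.ofReal p ≠ 0 := by
    rw [Ne, ENNReal.ofReal_eq_zero, not_le]; exact hp0
  rw [eLpNorm_eq_lintegral_rpow_enorm_toReal hp' ENNReal.ofReal_ne_top,
    eLpNorm_eq_lintegral_rpow_enorm_toReal hp' ENNReal.ofReal_ne_top, ENNReal.toReal_ofReal hp0.le]
  have h1 : ENNReal.ofReal ((4 * (n : ℝ) ^ (3 / 4 : ℝ)) ^ (1 - 2 / p)) *
      (∫⁻ x, ‖f x‖ₑ ^ p) ^ (1 / p) =
      (ENNReal.ofReal ((4 * (n : ℝ) ^ (3 / 4 : ℝ)) ^ (1 - 2 / p)) ^ p *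
        ∫⁻ x, ‖f x‖ₑ ^ p) ^ (1 / p) := by
    rw [ENNReal.mul_rpow_of_nonneg _ _ (by positivity), ← ENNReal.rpow_mul,
      mul_one_div_cancel hp0.ne', ENNReal.rpow_one]
  rw [h1]
  exact ENNReal.rpow_le_rpow hb2 (by positivity)

end Pool.Agent.U307.RAD
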