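import Pool.Agent.U307.RAD.Stm2
import Pool.Agent.U307.RAD.Asm

/-! Project RAD: assembly of the second part. -/

set_option autoImplicit false

open MeasureTheory Filter Topology Set
open scoped ENNReal SchwartzMap ComplexConjugate

namespace Pool.Agent.U307.RAD

theorem KU_pos (n l : ℕ) : 1 ≤ KU n l := by
  unfold KU
  have : 0 ≤ ∫ r in (0 : ℝ)..1, |uu n l r| / r :=
    intervalIntegral.integral_nonneg (by norm_num) fun r hr => div_nonneg (abs_nonneg _) hr.1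
  linarith

/-- the bound on `L^q` by interpolation, `q₀ → 1` -/
theorem q_bound (hLQ : S_LQ) (hL2 : S_L2) (hLIN : S_LIN) (hRT : S_RT2) (n l : ℕ) (q : ℝ)
    (hn : 1 ≤ n) (hl : 1 ≤ l) (hq1 : 1 < q) (hq2 : q < 2) (f : SchwartzMap ℂ ℂ) :
    ∫⁻ z, ‖AA n l f z‖ₑ ^ q ≤ ENNReal.ofReal (KU n l ^ (2 / q - 1)) ^ q * ∫⁻ z, ‖f z‖ₑ ^ q := by
  obtain ⟨h1, h2, h3⟩ := hLIN n l
  have hK := KU_pos n l
  have hK0 : 0 < KU n l := by linarith
  set τ : ℝ → ℝ := fun P => (1 / q - 1 / 2) / (1 / P - 1 / 2) with hτ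
  have hev : ∀ᶠ P in 𝓝[>] (1 : ℝ), ∫⁻ z, ‖AA n l f z‖ₑ ^ q ≤
      ENNReal.ofReal (KU n l ^ τ P) ^ q * ∫⁻ z, ‖f z‖ₑ ^ q := by
    have hm : Ioo (1 : ℝ) q ∈ 𝓝[>] (1 : ℝ) := Ioo_mem_nhdsGT hq1
    filter_upwards [hm] with P hP
    have hP1 : 1 < P := hP.1
    have hPq : P < q := hP.2
    have hne : (1 : ℝ) / P - 1 / 2 ≠ 0 := by
      have : (1 : ℝ) / 2 < 1 / P := one_div_lt_one_div_of_lt (by linarith) (by linarith)
      linarith
    have hth : 1 / q = (1 - (1 - τ P)) / P + (1 - τ P) / 2 := by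
      have e : τ P * (1 / P - 1 / 2) = 1 / q - 1 / 2 := by
        rw [hτ]
        exact div_mul_cancel₀ _ hne
      have : (1 - (1 - τ P)) / P = τ P * (1 / P) := by ring
      rw [this]
      linarith
    have key := hRT (AA n l) h1 h2 h3 P q (1 - τ P) (KU n l) 1 hP1 hPq hq2 hth hK0 one_pos
      (fun g => hLQ n l hn hl P hP1 (by linarith) g) (fun g => by simpa using hL2 n l g) f
    simpa using key
  have h4 : Tendsto τ (𝓝[>] (1 : ℝ)) (𝓝 (2 / q - 1)) := by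
    have h5 : Tendsto (fun P : ℝ => (1 / q - 1 / 2) / (1 / P - 1 / 2)) (𝓝 1)
        (𝓝 ((1 / q - 1 / 2) / (1 / 1 - 1 / 2))) := by
      refine Tendsto.div tendsto_const_nhds (Tendsto.sub ?_ tendsto_const_nhds) (by norm_num)
      exact Tendsto.div tendsto_const_nhds tendsto_id (by norm_num)
    have e : (1 / q - 1 / 2) / (1 / 1 - 1 / 2) = 2 / q - 1 := by ring
    rw [e] at h5
    exact h5.mono_left nhdsWithin_le_nhds
  have h5 : Tendsto (fun P => KU n l ^ τ P) (𝓝[>] (1 : ℝ)) (𝓝 (KU n l ^ (2 / q - 1))) :=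
    (tendsto_const_nhds).rpow h4 (Or.inl hK0.ne')
  have h6 : Tendsto (fun P => ENNReal.ofReal (KU n l ^ τ P) ^ q * ∫⁻ z, ‖f z‖ₑ ^ q) (𝓝[>] (1 : ℝ))
      (𝓝 (ENNReal.ofReal (KU n l ^ (2 / q - 1)) ^ q * ∫⁻ z, ‖f z‖ₑ ^ q)) := by
    refine ENNReal.Tendsto.mul_const ?_ (Or.inl ?_)
    · exact ((ENNReal.continuous_rpow_const (y := q)).tendsto _).comp
        ((ENNReal.continuous_ofReal.tendsto _).comp h5)
    · have : 0 < KU n l ^ (2 / q - 1) := Real.rpow_pos_of_pos hK0 _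
      exact (ENNReal.rpow_pos (ENNReal.ofReal_pos.2 this) ENNReal.ofReal_ne_top).ne'
  exact ge_of_tendsto h6 hev

/-- the bilinear form only sees the component -/
theorem pair (hSYM : S_SYM) (hTB : S_TB) (hPRJ : S_PRJ) (n l : ℕ) (f h : SchwartzMap ℂ ℂ)
    (hf : Tm (2 * n + l) f) : ∫ z, TS n f z * h z = ∫ z, f z * AA n l h z := by
  rw [hSYM n f h]
  exact hPRJ (2 * n + l) f hf (TS n h) (hTB n h).1 (hTB n h).2

theorem up_bound (hLQ : S_LQ) (hL2 : S_L2) (hLIN : S_LIN) (hRT : S_RT2) (hSYM : S_SYM) (hTB : S_TB)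
    (hPRJ : S_PRJ) (hSUP : S_SUP) (n l : ℕ) (p : ℝ) (hn : 1 ≤ n) (hl : 1 ≤ l) (hp : 2 < p)
    (f : SchwartzMap ℂ ℂ) (hf : Tm (2 * n + l) f) :
    ∫⁻ z, ‖TS n f z‖ₑ ^ p ≤ ENNReal.ofReal (KU n l ^ (1 - 2 / p)) ^ p * ∫⁻ z, ‖f z‖ₑ ^ p := by
  have hp0 : 0 < p := by linarith
  have hc : p.HolderConjugate (p.conjExponent) := Real.HolderConjugate.conjExponent (by linarith)
  set q := p.conjExponent with hq
  have hsum : 1 / p + 1 / q = 1 := by
    rw [one_div, one_div]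
    exact hc.inv_add_inv_eq_one
  have hip : (1 : ℝ) / p < 1 / 2 := one_div_lt_one_div_of_lt (by norm_num) hp
  have hip0 : 0 < 1 / p := by positivity
  have hq0 : 0 < q := hc.symm.pos
  have hq1 : 1 < q := hc.symm.lt
  have hq2 : q < 2 := by
    have h1 : 1 / 2 < 1 / q := by linarith
    exact (one_div_lt_one_div (by norm_num) hq0).1 h1
  have hs : 2 / q - 1 = 1 - 2 / p := by
    have e1 : 2 / q = 2 * (1 / q) := by ring
    have e2 : 2 / p = 2 * (1 / p) := by ring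
    rw [e1, e2]
    linarith
  have hK := KU_pos n l
  have hK0 : 0 < KU n l := by linarith
  set K := KU n l ^ (1 - 2 / p) with hKdef
  have hKp : 0 < K := Real.rpow_pos_of_pos hK0 _
  have hfp : eLpNorm (fun z : ℂ => f z) (ENNReal.ofReal p) volume ≠ ⊤ :=
    (f.memLp (ENNReal.ofReal p)).2.ne
  have hp' : ENNReal.ofReal p ≠ 0 := by
    rw [Ne, ENNReal.ofReal_eq_zero, not_le]; exact hp0
  have hN : eLpNorm (fun z : ℂ => f z) (ENNReal.ofReal p) volume = (∫⁻ z, ‖f z‖ₑ ^ p) ^ (1 / p) := by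
    rw [eLpNorm_eq_lintegral_rpow_enorm_toReal hp' ENNReal.ofReal_ne_top, ENNReal.toReal_ofReal hp0.le]
  set N := (∫⁻ z, ‖f z‖ₑ ^ p) ^ (1 / p) with hNdef
  rw [hN] at hfp
  set C : ℝ := K * N.toReal with hC
  have hC0 : 0 ≤ C := mul_nonneg hKp.le ENNReal.toReal_nonneg
  have hCe : ENNReal.ofReal C = ENNReal.ofReal K * N := by
    rw [hC, ENNReal.ofReal_mul hKp.le, ENNReal.ofReal_toReal hfp]
  have key := hSUP p q hp hsum (TS n f) (hTB n f).1 (hTB n f).2 C hC0 (fun h => ?_)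
  · refine key.trans (le_of_eq ?_)
    rw [hCe, ENNReal.mul_rpow_of_nonneg _ _ hp0.le, hNdef, ← ENNReal.rpow_mul,
      one_div_mul_cancel hp0.ne', ENNReal.rpow_one]
  · rw [pair hSYM hTB hPRJ n l f h hf]
    have hcont : Continuous (AA n l h) := (hLIN n l).2.2 h
    have e1 := q_bound hLQ hL2 hLIN hRT n l q hn hl hq1 hq2 h
    rw [hs] at e1
    calc ‖∫ z, f z * AA n l h z‖ₑ ≤ ∫⁻ z, ‖f z * AA n l h z‖ₑ := enorm_integral_le_lintegral_enorm _
      _ = ∫⁻ z, ((fun z => ‖f z‖ₑ) * (fun z => ‖AA n l h z‖ₑ)) z := by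
          refine lintegral_congr fun z => ?_
          rw [enorm_mul]
          rfl
      _ ≤ (∫⁻ z, ‖f z‖ₑ ^ p) ^ (1 / p) * (∫⁻ z, ‖AA n l h z‖ₑ ^ q) ^ (1 / q) :=
          ENNReal.lintegral_mul_le_Lp_mul_Lq volume hc f.continuous.enorm.measurable.aemeasurable
            hcont.enorm.measurable.aemeasurable
      _ ≤ N * (ENNReal.ofReal K ^ q * ∫⁻ z, ‖h z‖ₑ ^ q) ^ (1 / q) := by
          gcongr
      _ = ENNReal.ofReal C * (∫⁻ z, ‖h z‖ₑ ^ q) ^ (1 / q) := by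
          rw [ENNReal.mul_rpow_of_nonneg _ _ (by positivity), ← ENNReal.rpow_mul,
            mul_one_div_cancel hq0.ne', ENNReal.rpow_one, hCe]
          ring

theorem fin2 (hLQ : S_LQ) (hL2 : S_L2) (hLIN : S_LIN) (hRT : S_RT2) (hSYM : S_SYM) (hTB : S_TB)
    (hPRJ : S_PRJ) (hSUP : S_SUP) (hKU : S_KU)
    (hTS2 : ∀ (n : ℕ) (f : SchwartzMap ℂ ℂ), ∫⁻ z, ‖TS n f z‖ₑ ^ (2 : ℝ) ≤ ∫⁻ z, ‖f z‖ₑ ^ (2 : ℝ)) :
    S_FIN2 := by
  intro n l p hn hl hlog hp f hf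
  rcases hp.eq_or_lt with h | hp2
  · rw [← h]
    norm_num
    simpa using hTS2 n f
  · refine (up_bound hLQ hL2 hLIN hRT hSYM hTB hPRJ hSUP n l p hn (by omega) hp2 f hf).trans ?_
    have h1 : KU n l ^ (1 - 2 / p) ≤ (13 / 2 * (n : ℝ)) ^ (1 - 2 / p) := by
      refine Real.rpow_le_rpow (by linarith [KU_pos n l]) (hKU n l hn hl hlog) ?_
      rw [sub_nonneg, div_le_one (by linarith)]
      linarith
    gcongr

end Pool.Agent.U307.RAD
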