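import Pool.Agent.U307.RAD.Stm4
import Pool.Agent.U307.RAD.Asm2

/-! Project RAD: assembly of the fourth part. -/

set_option autoImplicit false

open MeasureTheory Filter Topology Set
open scoped ENNReal SchwartzMap ComplexConjugate

namespace Pool.Agent.U307.RAD.Asm4

theorem q_bound4 (hL2 : S_L2) (hLIN : S_LIN) (hRT : S_RT2) (n : ℕ) (V W : ℝ) (χ : ℂ → ℝ) (q : ℝ)
    (hV : 1 ≤ V) (hW : 1 ≤ W) (hχc : Continuous χ) (hχ : ∀ z, 0 ≤ χ z ∧ χ z ≤ 1)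
    (hb : ∀ q : ℝ, 1 < q → q ≤ 2 → ∀ f : SchwartzMap ℂ ℂ,
      ∫⁻ z, ‖(χ z : ℂ) * AA n 0 f z‖ₑ ^ q ≤
        ENNReal.ofReal (1 + V ^ (1 - 1 / q) * W ^ (1 / q)) ^ q * ∫⁻ z, ‖f z‖ₑ ^ q)
    (hq1 : 1 < q) (hq2 : q < 2) (f : SchwartzMap ℂ ℂ) :
    ∫⁻ z, ‖(χ z : ℂ) * AA n 0 f z‖ₑ ^ q ≤
      ENNReal.ofReal ((1 + W) ^ (2 / q - 1)) ^ q * ∫⁻ z, ‖f z‖ₑ ^ q := by
  obtain ⟨h1, h2, h3⟩ := hLIN n 0
  have hV0 : 0 < V := by linarith
  have hW0 : 0 < W := by linarith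
  set K : ℝ → ℝ := fun P => 1 + V ^ (1 - 1 / P) * W ^ (1 / P) with hK
  have hK0 : ∀ P, 0 < K P := fun P => by
    rw [hK]
    positivity
  set τ : ℝ → ℝ := fun P => (1 / q - 1 / 2) / (1 / P - 1 / 2) with hτ
  have hL2' : ∀ g : SchwartzMap ℂ ℂ, ∫⁻ z, ‖(χ z : ℂ) * AA n 0 g z‖ₑ ^ (2 : ℝ) ≤
      ∫⁻ z, ‖g z‖ₑ ^ (2 : ℝ) := by
    intro g
    refine le_trans (lintegral_mono fun z => ?_) (hL2 n 0 g)
    refine ENNReal.rpow_le_rpow ?_ (by norm_num)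
    rw [enorm_mul]
    have : ‖(χ z : ℂ)‖ₑ ≤ 1 := by
      rw [← ofReal_norm, Complex.norm_real, Real.norm_of_nonneg (hχ z).1, ← ENNReal.ofReal_one]
      exact ENNReal.ofReal_le_ofReal (hχ z).2
    calc ‖(χ z : ℂ)‖ₑ * ‖AA n 0 g z‖ₑ ≤ 1 * ‖AA n 0 g z‖ₑ := by gcongr
      _ = _ := one_mul _
  have hev : ∀ᶠ P in 𝓝[>] (1 : ℝ), ∫⁻ z, ‖(χ z : ℂ) * AA n 0 f z‖ₑ ^ q ≤
      ENNReal.ofReal (K P ^ τ P) ^ q * ∫⁻ z, ‖f z‖ₑ ^ q := by
    have hm : Ioo (1 : ℝ) q ∈ 𝓝[>] (1 : ℝ) := Ioo_mem_nhdsGT hq1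
    filter_upwards [hm] with P hP
    have hP1 : 1 < P := hP.1
    have hPq : P < q := hP.2
    have hne : (1 : ℝ) / P - 1 / 2 ≠ 0 := by
      have : (1 : ℝ) / 2 < 1 / P := one_div_lt_one_div_of_lt (by linarith) (by linarith)
      linarith
    have hth : 1 / q = (1 - (1 - τ P)) / P + (1 - τ P) / 2 := by
      have e : τ P * (1 / P - 1 / 2) = 1 / q - 1 / 2 := by
        rw [hτ]
        exact div_mul_cancel₀ _ hne
      have : (1 - (1 - τ P)) / P = τ P * (1 / P) := by ring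
      rw [this]
      linarith
    have key := hRT (fun g z => (χ z : ℂ) * AA n 0 g z)
      (fun f g z => by rw [h1]; ring) (fun c f z => by rw [h2]; ring)
      (fun f => (Complex.continuous_ofReal.comp hχc).mul (h3 f))
      P q (1 - τ P) (K P) 1 hP1 hPq hq2 hth (hK0 P) one_pos
      (fun g => hb P hP1 (by linarith) g) (fun g => by simpa using hL2' g) f
    simpa using key
  have h4 : Tendsto τ (𝓝[>] (1 : ℝ)) (𝓝 (2 / q - 1)) := by
    have h5 : Tendsto (fun P : ℝ => (1 / q - 1 / 2) / (1 / P - 1 / 2)) (𝓝 1)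
        (𝓝 ((1 / q - 1 / 2) / (1 / 1 - 1 / 2))) := by
      refine Tendsto.div tendsto_const_nhds (Tendsto.sub ?_ tendsto_const_nhds) (by norm_num)
      exact Tendsto.div tendsto_const_nhds tendsto_id (by norm_num)
    have e : (1 / q - 1 / 2) / (1 / 1 - 1 / 2) = 2 / q - 1 := by ring
    rw [e] at h5
    exact h5.mono_left nhdsWithin_le_nhds
  have h4' : Tendsto K (𝓝[>] (1 : ℝ)) (𝓝 (1 + W)) := by
    have e1 : Tendsto (fun P : ℝ => 1 / P) (𝓝 1) (𝓝 (1 / 1)) :=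
      Tendsto.div tendsto_const_nhds tendsto_id (by norm_num)
    have e2 : Tendsto (fun P : ℝ => V ^ (1 - 1 / P)) (𝓝 1) (𝓝 (V ^ ((1 : ℝ) - 1 / 1))) :=
      (tendsto_const_nhds).rpow (tendsto_const_nhds.sub e1) (Or.inl hV0.ne')
    have e3 : Tendsto (fun P : ℝ => W ^ (1 / P)) (𝓝 1) (𝓝 (W ^ ((1 : ℝ) / 1))) :=
      (tendsto_const_nhds).rpow e1 (Or.inl hW0.ne')
    have e4 := (tendsto_const_nhds (x := (1 : ℝ))).add (e2.mul e3)
    have e5 : (1 : ℝ) + V ^ ((1 : ℝ) - 1 / 1) * W ^ ((1 : ℝ) / 1) = 1 + W := by norm_num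
    rw [e5] at e4
    exact e4.mono_left nhdsWithin_le_nhds
  have h5 : Tendsto (fun P => K P ^ τ P) (𝓝[>] (1 : ℝ)) (𝓝 ((1 + W) ^ (2 / q - 1))) :=
    h4'.rpow h4 (Or.inl (by linarith))
  have h6 : Tendsto (fun P => ENNReal.ofReal (K P ^ τ P) ^ q * ∫⁻ z, ‖f z‖ₑ ^ q) (𝓝[>] (1 : ℝ))
      (𝓝 (ENNReal.ofReal ((1 + W) ^ (2 / q - 1)) ^ q * ∫⁻ z, ‖f z‖ₑ ^ q)) := by
    refine ENNReal.Tendsto.mul_const ?_ (Or.inl ?_)
    · exact ((ENNReal.continuous_rpow_const (y := q)).tendsto _).comp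
        ((ENNReal.continuous_ofReal.tendsto _).comp h5)
    · have : 0 < (1 + W) ^ (2 / q - 1) := Real.rpow_pos_of_pos (by linarith) _
      exact (ENNReal.rpow_pos (ENNReal.ofReal_pos.2 this) ENNReal.ofReal_ne_top).ne'
  exact ge_of_tendsto h6 hev

theorem up4 (hL2 : S_L2) (hLIN : S_LIN) (hRT : S_RT2) (hSYM : S_SYM) (hTB : S_TB)
    (hPRJ : S_PRJ) (hSUP : S_SUP) (n : ℕ) (V W : ℝ) (χ : ℂ → ℝ)
    (hV : 1 ≤ V) (hW : 1 ≤ W) (hχc : Continuous χ) (hχ : ∀ z, 0 ≤ χ z ∧ χ z ≤ 1)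
    (hb : ∀ q : ℝ, 1 < q → q ≤ 2 → ∀ f : SchwartzMap ℂ ℂ,
      ∫⁻ z, ‖(χ z : ℂ) * AA n 0 f z‖ₑ ^ q ≤
        ENNReal.ofReal (1 + V ^ (1 - 1 / q) * W ^ (1 / q)) ^ q * ∫⁻ z, ‖f z‖ₑ ^ q)
    (p : ℝ) (hp : 2 < p)
    (f : SchwartzMap ℂ ℂ) (hf : Tm (2 * n) f) (hs : ∀ z, f z ≠ 0 → χ z = 1) :
    ∫⁻ z, ‖TS n f z‖ₑ ^ p ≤ ENNReal.ofReal ((1 + W) ^ (1 - 2 / p)) ^ p * ∫⁻ z, ‖f z‖ₑ ^ p := by
  have hp0 : 0 < p := by linarith
  have hc : p.HolderConjugate (p.conjExponent) := Real.HolderConjugate.conjExponent (by linarith)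
  set q := p.conjExponent with hq
  have hsum : 1 / p + 1 / q = 1 := by
    rw [one_div, one_div]
    exact hc.inv_add_inv_eq_one
  have hip : (1 : ℝ) / p < 1 / 2 := one_div_lt_one_div_of_lt (by norm_num) hp
  have hip0 : 0 < 1 / p := by positivity
  have hq0 : 0 < q := hc.symm.pos
  have hq1 : 1 < q := hc.symm.lt
  have hq2 : q < 2 := by
    have h1 : 1 / 2 < 1 / q := by linarith
    exact (one_div_lt_one_div (by norm_num) hq0).1 h1
  have hs' : 2 / q - 1 = 1 - 2 / p := by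
    have e1 : 2 / q = 2 * (1 / q) := by ring
    have e2 : 2 / p = 2 * (1 / p) := by ring
    rw [e1, e2]
    linarith
  have hK0 : 0 < 1 + W := by linarith
  set K := (1 + W) ^ (1 - 2 / p) with hKdef
  have hKp : 0 < K := Real.rpow_pos_of_pos hK0 _
  have hfp : eLpNorm (fun z : ℂ => f z) (ENNReal.ofReal p) volume ≠ ⊤ :=
    (f.memLp (ENNReal.ofReal p)).2.ne
  have hp' : ENNReal.ofReal p ≠ 0 := by
    rw [Ne, ENNReal.ofReal_eq_zero, not_le]; exact hp0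
  have hN : eLpNorm (fun z : ℂ => f z) (ENNReal.ofReal p) volume = (∫⁻ z, ‖f z‖ₑ ^ p) ^ (1 / p) := by
    rw [eLpNorm_eq_lintegral_rpow_enorm_toReal hp' ENNReal.ofReal_ne_top, ENNReal.toReal_ofReal hp0.le]
  set N := (∫⁻ z, ‖f z‖ₑ ^ p) ^ (1 / p) with hNdef
  rw [hN] at hfp
  set C : ℝ := K * N.toReal with hC
  have hC0 : 0 ≤ C := mul_nonneg hKp.le ENNReal.toReal_nonneg
  have hCe : ENNReal.ofReal C = ENNReal.ofReal K * N := by
    rw [hC, ENNReal.ofReal_mul hKp.le, ENNReal.ofReal_toReal hfp]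
  have key := hSUP p q hp hsum (TS n f) (hTB n f).1 (hTB n f).2 C hC0 (fun h => ?_)
  · refine key.trans (le_of_eq ?_)
    rw [hCe, ENNReal.mul_rpow_of_nonneg _ _ hp0.le, hNdef, ← ENNReal.rpow_mul,
      one_div_mul_cancel hp0.ne', ENNReal.rpow_one]
  · rw [pair hSYM hTB hPRJ n 0 f h hf]
    have hchi : ∫ z, f z * AA n 0 h z = ∫ z, f z * ((χ z : ℂ) * AA n 0 h z) := by
      refine integral_congr_ae (Eventually.of_forall fun z => ?_)
      by_cases h0 : f z = 0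
      · simp only [h0, zero_mul]
      · simp only [hs z h0, Complex.ofReal_one, one_mul]
    rw [hchi]
    have hcont : Continuous fun z => (χ z : ℂ) * AA n 0 h z :=
      (Complex.continuous_ofReal.comp hχc).mul ((hLIN n 0).2.2 h)
    have e1 := q_bound4 hL2 hLIN hRT n V W χ q hV hW hχc hχ hb hq1 hq2 h
    rw [hs'] at e1
    calc ‖∫ z, f z * ((χ z : ℂ) * AA n 0 h z)‖ₑ ≤ ∫⁻ z, ‖f z * ((χ z : ℂ) * AA n 0 h z)‖ₑ :=
          enorm_integral_le_lintegral_enorm _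
      _ = ∫⁻ z, ((fun z => ‖f z‖ₑ) * (fun z => ‖(χ z : ℂ) * AA n 0 h z‖ₑ)) z := by
          refine lintegral_congr fun z => ?_
          rw [enorm_mul]
          rfl
      _ ≤ (∫⁻ z, ‖f z‖ₑ ^ p) ^ (1 / p) * (∫⁻ z, ‖(χ z : ℂ) * AA n 0 h z‖ₑ ^ q) ^ (1 / q) :=
          ENNReal.lintegral_mul_le_Lp_mul_Lq volume hc f.continuous.enorm.measurable.aemeasurable
            hcont.enorm.measurable.aemeasurable
      _ ≤ N * (ENNReal.ofReal K ^ q * ∫⁻ z, ‖h z‖ₑ ^ q) ^ (1 / q) := by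
          gcongr
      _ = ENNReal.ofReal C * (∫⁻ z, ‖h z‖ₑ ^ q) ^ (1 / q) := by
          rw [ENNReal.mul_rpow_of_nonneg _ _ (by positivity), ← ENNReal.rpow_mul,
            mul_one_div_cancel hq0.ne', ENNReal.rpow_one, hCe]
          ring

theorem fin4 (hWIN : S_WIN) (hCUT : S_CUT) (hL2 : S_L2) (hLIN : S_LIN) (hRT : S_RT2) (hSYM : S_SYM)
    (hTB : S_TB) (hPRJ : S_PRJ) (hSUP : S_SUP)
    (hTS2 : ∀ (n : ℕ) (f : SchwartzMap ℂ ℂ), ∫⁻ z, ‖TS n f z‖ₑ ^ (2 : ℝ) ≤ ∫⁻ z, ‖f z‖ₑ ^ (2 : ℝ)) :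
    S_FIN4 := by
  intro n p a b M hn hp ha hab hM f hf hsupp
  have hn1 : (1 : ℝ) ≤ n := by exact_mod_cast hn
  rcases hp.eq_or_lt with h | hp2
  · rw [← h]
    norm_num
    simpa using hTS2 n f
  have hb0 : 0 < b := by linarith
  have hL0 : 0 ≤ Real.log (b / a) := Real.log_nonneg ((one_le_div ha).2 hab)
  set L := Real.log (b / a) with hL
  set δ : ℝ := (M - 2 - 4 * L) / 8 with hδ
  have hδ0 : 0 < δ := by rw [hδ]; linarith
  set a' : ℝ := a * Real.exp (-δ) with ha'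
  set b' : ℝ := b * Real.exp δ with hb'
  have ha'0 : 0 < a' := by positivity
  have haa : a' < a := by
    rw [ha']
    have : Real.exp (-δ) < 1 := by
      rw [Real.exp_lt_one_iff]; linarith
    nlinarith
  have hbb : b < b' := by
    rw [hb']
    have : 1 < Real.exp δ := by
      rw [Real.one_lt_exp_iff]; exact hδ0
    nlinarith
  set V : ℝ := KI n 0 with hV
  have hqq : 0 ≤ ∫ r in (0 : ℝ)..1, |qq n 0 r| :=
    intervalIntegral.integral_nonneg (by norm_num) fun r _ => abs_nonneg _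
  have hV1 : 1 ≤ V := by rw [hV]; unfold KI; linarith
  have hVq : ∫ r in (0 : ℝ)..1, |qq n 0 r| ≤ V := by rw [hV]; unfold KI; linarith
  set W : ℝ := n + 4 * n * (L + 2 * δ) with hW
  have hW1 : 1 ≤ W := by
    have : 0 ≤ 4 * (n : ℝ) * (L + 2 * δ) := by positivity
    rw [hW]; linarith
  set χ : ℂ → ℝ := fun z => max 0 (min 1 ((‖z‖ - a') / (a - a'))) *
    max 0 (min 1 ((b' - ‖z‖) / (b' - b))) with hχ
  have hχc : Continuous χ := by
    rw [hχ]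
    fun_prop
  have hcl : ∀ t : ℝ, 0 ≤ max 0 (min 1 t) ∧ max 0 (min 1 t) ≤ 1 := fun t =>
    ⟨le_max_left _ _, max_le (by norm_num) (min_le_left _ _)⟩
  have hχ1 : ∀ z, 0 ≤ χ z ∧ χ z ≤ 1 := by
    intro z
    refine ⟨mul_nonneg (hcl _).1 (hcl _).1, ?_⟩
    exact mul_le_one₀ (hcl _).2 (hcl _).1 (hcl _).2
  have hχ2 : ∀ z, χ z ≠ 0 → a' ≤ ‖z‖ ∧ ‖z‖ ≤ b' := by
    intro z hz
    have h1 : max 0 (min 1 ((‖z‖ - a') / (a - a'))) ≠ 0 := left_ne_zero_of_mul hz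
    have h2 : max 0 (min 1 ((b' - ‖z‖) / (b' - b))) ≠ 0 := right_ne_zero_of_mul hz
    constructor
    · by_contra hc
      rw [not_le] at hc
      apply h1
      refine max_eq_left ((min_le_right _ _).trans ?_)
      exact div_nonpos_of_nonpos_of_nonneg (by linarith) (by linarith)
    · by_contra hc
      rw [not_le] at hc
      apply h2
      refine max_eq_left ((min_le_right _ _).trans ?_)
      exact div_nonpos_of_nonpos_of_nonneg (by linarith) (by linarith)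
  have hχ3 : ∀ z, f z ≠ 0 → χ z = 1 := by
    intro z hz
    obtain ⟨h1, h2⟩ := hsupp z hz
    have e1 : (1 : ℝ) ≤ (‖z‖ - a') / (a - a') := by
      rw [one_le_div (by linarith)]; linarith
    have e2 : (1 : ℝ) ≤ (b' - ‖z‖) / (b' - b) := by
      rw [one_le_div (by linarith)]; linarith
    rw [hχ]
    simp only [min_eq_left e1, min_eq_left e2]
    norm_num
  have hwin : ∀ α β : ℝ, 0 < α → α ≤ β → β ≤ 1 → β * a' ≤ α * b' →
      ∫ r in α..β, |uu n 0 r| / r ≤ W := by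
    intro α β hα hαβ hβ hr
    refine (hWIN n α β hn hα hαβ hβ).trans ?_
    have hlog : Real.log (β / α) ≤ L + 2 * δ := by
      have h1 : β / α ≤ b' / a' := by
        rw [div_le_div_iff₀ hα ha'0]
        linarith
      refine (Real.log_le_log (div_pos (hα.trans_le hαβ) hα) h1).trans (le_of_eq ?_)
      rw [hb', ha', hL, mul_div_mul_comm, Real.log_mul (by positivity) (by positivity),
        Real.log_div (Real.exp_ne_zero _) (Real.exp_ne_zero _), Real.log_exp, Real.log_exp]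
      ring
    rw [hW]
    gcongr
  have key := up4 hL2 hLIN hRT hSYM hTB hPRJ hSUP n V W χ hV1 hW1 hχc hχ1
    (hCUT n a' b' V W χ hn ha'0 (by linarith) hV1 hW1 hχc hχ1 hχ2 hVq hwin) p hp2 f hf hχ3
  refine key.trans ?_
  have h1 : (1 + W) ^ (1 - 2 / p) ≤ (n * M) ^ (1 - 2 / p) := by
    refine Real.rpow_le_rpow (by linarith) ?_ ?_
    · have e : (n : ℝ) * M = n * (2 + 4 * L + 8 * δ) := by
        rw [hδ]; ring
      rw [e, hW]
      nlinarith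
    · rw [sub_nonneg, div_le_one (by linarith)]
      linarith
  gcongr

end Pool.Agent.U307.RAD.Asm4
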