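import Pool.Agent.U307.RAD.Stm3

/-!
# Project RAD, fourth part: the extremal type `2 n` on annuli

For `f` of type `2 n` supported in an annulus `a ≤ ‖z‖ ≤ b` the norm of `T ^ n f` in `L ^ p` is at most
`(n (2 + 4 log (b / a))) ^ (1 - 2/p)` times the norm of `f` (up to an arbitrarily small change of the
constant).
-/

set_option autoImplicit false

open MeasureTheory Filter Topology Set
open scoped ENNReal SchwartzMap ComplexConjugate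

namespace Pool.Agent.U307.RAD

/-- LEG: `ph n 0 r` is the Legendre polynomial at `2 r² - 1`. -/
def S_LEG : Prop := ∀ (n : ℕ) (r : ℝ), 0 ≤ r → r ≤ 1 → |ph n 0 r| ≤ 1

/-- WIN: windows. -/
def S_WIN : Prop := ∀ (n : ℕ) (α β : ℝ), 1 ≤ n → 0 < α → α ≤ β → β ≤ 1 →
  ∫ r in α..β, |uu n 0 r| / r ≤ n + 4 * n * Real.log (β / α)

/-- CUT: the bound on `L ^ q` with a cut-off function. -/
def S_CUT : Prop := ∀ (n : ℕ) (a b V W : ℝ) (χ : ℂ → ℝ), 1 ≤ n → 0 < a → a ≤ b → 1 ≤ V → 1 ≤ W →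
  Continuous χ → (∀ z, 0 ≤ χ z ∧ χ z ≤ 1) → (∀ z, χ z ≠ 0 → a ≤ ‖z‖ ∧ ‖z‖ ≤ b) →
  ∫ r in (0 : ℝ)..1, |qq n 0 r| ≤ V →
  (∀ α β : ℝ, 0 < α → α ≤ β → β ≤ 1 → β * a ≤ α * b → ∫ r in α..β, |uu n 0 r| / r ≤ W) →
  ∀ q : ℝ, 1 < q → q ≤ 2 → ∀ f : SchwartzMap ℂ ℂ,
  ∫⁻ z, ‖(χ z : ℂ) * AA n 0 f z‖ₑ ^ q ≤
    ENNReal.ofReal (1 + V ^ (1 - 1 / q) * W ^ (1 / q)) ^ q * ∫⁻ z, ‖f z‖ₑ ^ q

/-- the bound on annuli -/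
def S_FIN4 : Prop := ∀ (n : ℕ) (p a b M : ℝ), 1 ≤ n → 2 ≤ p → 0 < a → a ≤ b →
  2 + 4 * Real.log (b / a) < M → ∀ f : SchwartzMap ℂ ℂ, Tm (2 * n) f →
  (∀ z, f z ≠ 0 → a ≤ ‖z‖ ∧ ‖z‖ ≤ b) →
  ∫⁻ z, ‖TS n f z‖ₑ ^ p ≤ ENNReal.ofReal ((n * M) ^ (1 - 2 / p)) ^ p * ∫⁻ z, ‖f z‖ₑ ^ p

end Pool.Agent.U307.RAD
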