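import Mathlib

/-!
# Project RAD (helper307): powers of the Beurling transform on functions of nonpositive angular type

Goal (MP_3dd6d4_an, MP_dd244f_an): for all `n ≥ 1`, `p ≥ 2`, `l ≥ 0` and Schwartz functions `f` with
`f (a z) = (conj a) ^ l f z` for `‖a‖ = 1` (`l = 0`: radial functions),
`‖T ^ n f‖_p ≤ (4 n ^ (3/4)) ^ (1 - 2/p) ‖f‖_p`.

Outline. `A f = PP (2 n + l) (TS n f)` is linear, equals `T ^ n f` on the class, has norm at most one on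
`L²`, and `A f z = (conj z / z) ^ n (PP l f z - ∫_0^1 qq(r) PP l f (r z) dr)`, where `qq` is the
reproducing kernel at `1` of the span of `r ^ (l + 2 i)`, `i < n`, times `2 r`. So `A` is bounded on `L^P`
by `1 + ∫ |qq| r ^ (-2/P)`, and the theorem of Riesz and Thorin with `P → ∞` gives the bound
`(1 + ∫ |qq|) ^ (1 - 2/p)`.

A package `X` is: prove `theorem t_X : S_X` (or from the named hypotheses).
-/

set_option autoImplicit false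

open MeasureTheory Filter Topology Set
open scoped ENNReal SchwartzMap ComplexConjugate

namespace Pool.Agent.U307.RAD

/-- the operator of the frozen statements (same text as `Pool.Agent.N892.BW.TS`, equal by `rfl`) -/
noncomputable def TS (n : ℕ) (f : SchwartzMap ℂ ℂ) (z : ℂ) : ℂ :=
  ∫ ξ : ℂ, Complex.exp (2 * (Real.pi : ℂ) * Complex.I * ((z.re * ξ.re + z.im * ξ.im : ℝ) : ℂ)) *
    ((starRingEnd ℂ ξ / ξ) ^ n *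
      ∫ w : ℂ, Complex.exp (-(2 * (Real.pi : ℂ) * Complex.I *
        ((w.re * ξ.re + w.im * ξ.im : ℝ) : ℂ))) * f w)

/-- the point `e^{2 π i t}` of the unit circle -/
noncomputable def ee (t : ℝ) : ℂ := Complex.exp (2 * (Real.pi : ℂ) * Complex.I * (t : ℂ))

/-- average over the rotations; it projects on the functions with `g (a z) = (conj a) ^ m g z` -/
noncomputable def PP (m : ℕ) (g : ℂ → ℂ) (z : ℂ) : ℂ := ∫ t in (0 : ℝ)..1, ee t ^ m * g (ee t * z)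

/-- the linear operator `f ↦ PP (2 n + l) (T ^ n f)` -/
noncomputable def AA (n l : ℕ) (f : SchwartzMap ℂ ℂ) (z : ℂ) : ℂ := PP (2 * n + l) (TS n f) z

/-- `∏_{i < n} (j - i) / (j + l + 1 + i)`; it is `0` for `j < n` -/
noncomputable def Mm (n l j : ℕ) : ℝ := ∏ i ∈ Finset.range n, (((j : ℝ) - i) / ((j : ℝ) + l + 1 + i))

/-- the coefficients of the kernel -/
noncomputable def Cc (n l i : ℕ) : ℝ :=
  (-1) ^ (n - 1 - i) * (∏ h ∈ Finset.range n, ((l : ℝ) + 1 + i + h)) /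
    ((i.factorial : ℝ) * ((n - 1 - i).factorial : ℝ))

noncomputable def uu (n l : ℕ) (r : ℝ) : ℝ := 2 * ∑ i ∈ Finset.range n, Cc n l i * r ^ (l + 2 * i)

/-- the kernel -/
noncomputable def qq (n l : ℕ) (r : ℝ) : ℝ := r * uu n l r

/-- `B_m(x) = ∫_0^1 e^{2 π i m t} e^{i x cos 2 π t} dt = i^m J_m(x)` -/
noncomputable def BB (m : ℕ) (x : ℝ) : ℂ :=
  ∫ t in (0 : ℝ)..1, ee t ^ m * Complex.exp (Complex.I * ((x * (ee t).re : ℝ) : ℂ))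

/-- the bound on `L^P` -/
noncomputable def KP (n l : ℕ) (P : ℝ) : ℝ := 1 + ∫ r in (0 : ℝ)..1, |uu n l r| * r ^ (1 - 2 / P)

/-- the limit of `KP n l P` for `P → ∞` -/
noncomputable def KI (n l : ℕ) : ℝ := 1 + ∫ r in (0 : ℝ)..1, |qq n l r|

/-- functions of angular type `-l` -/
def Typ (l : ℕ) (f : ℂ → ℂ) : Prop := ∀ a z : ℂ, ‖a‖ = 1 → f (a * z) = (starRingEnd ℂ a) ^ l * f z

/-! ## packages -/

/-- PF: partial fractions. -/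
def S_PF : Prop := ∀ n l : ℕ, 1 ≤ n →
  (∀ j : ℕ, ∑ i ∈ Finset.range n, Cc n l i / ((l : ℝ) + 1 + i + j) = 1 - Mm n l j) ∧
  ∑ i ∈ Finset.range n, Cc n l i = (n : ℝ) * (n + l)

/-- MOM: moments of the kernel and its energy. -/
def S_MOM : Prop := ∀ n l : ℕ, 1 ≤ n →
  (∀ j : ℕ, ∫ r in (0 : ℝ)..1, qq n l r * r ^ (l + 2 * j) = 1 - Mm n l j) ∧
  ∫ r in (0 : ℝ)..1, uu n l r ^ 2 * r = 2 * ((n : ℝ) * (n + l))

/-- EN: the second energy. -/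
def S_EN : Prop := ∀ n l : ℕ, 1 ≤ n →
  ∫ r in (0 : ℝ)..1, uu n l r ^ 2 * r * (1 - r ^ 2) ^ 2 =
    4 * ((n : ℝ) * (n + l)) ^ 2 / ((2 * n + l) * ((2 * (n : ℝ) + l) ^ 2 - 1))

/-- L1: the `L¹` norm of the kernel. -/
def S_L1 : Prop := ∀ n l : ℕ, 1 ≤ n → KI n l ≤ 4 * (n : ℝ) ^ (3 / 4 : ℝ)

/-- BES: the identity of Bessel functions. -/
def S_BES : Prop := ∀ n l : ℕ, 1 ≤ n → ∀ x : ℝ,
  BB (2 * n + l) x = BB l x - ∫ r in (0 : ℝ)..1, (qq n l r : ℂ) * BB l (r * x)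

/-- FRM: the formula for `AA`. -/
def S_FRM : Prop := ∀ n l : ℕ, 1 ≤ n → ∀ (f : SchwartzMap ℂ ℂ) (z : ℂ), z ≠ 0 →
  AA n l f z = (starRingEnd ℂ z / z) ^ n *
    (PP l f z - ∫ r in (0 : ℝ)..1, (qq n l r : ℂ) * PP l f ((r : ℂ) * z))

/-- LP: the bound on `L^P`. -/
def S_LP : Prop := ∀ n l : ℕ, 1 ≤ n → ∀ (P : ℝ), 2 < P → ∀ f : SchwartzMap ℂ ℂ,
  ∫⁻ z, ‖AA n l f z‖ₑ ^ P ≤ ENNReal.ofReal (KP n l P) ^ P * ∫⁻ z, ‖f z‖ₑ ^ P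

/-- L2: the bound on `L²`. -/
def S_L2 : Prop := ∀ (n l : ℕ) (f : SchwartzMap ℂ ℂ),
  ∫⁻ z, ‖AA n l f z‖ₑ ^ (2 : ℝ) ≤ ∫⁻ z, ‖f z‖ₑ ^ (2 : ℝ)

/-- LIN: linearity and continuity. -/
def S_LIN : Prop := ∀ n l : ℕ, (∀ (f g : SchwartzMap ℂ ℂ) (z : ℂ), AA n l (f + g) z = AA n l f z + AA n l g z) ∧
  (∀ (c : ℂ) (f : SchwartzMap ℂ ℂ) (z : ℂ), AA n l (c • f) z = c * AA n l f z) ∧
  ∀ f : SchwartzMap ℂ ℂ, Continuous (AA n l f)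

/-- RT: Riesz and Thorin for linear maps from Schwartz functions to continuous functions. -/
def S_RT : Prop := ∀ A : SchwartzMap ℂ ℂ → ℂ → ℂ,
  (∀ (f g : SchwartzMap ℂ ℂ) (z : ℂ), A (f + g) z = A f z + A g z) →
  (∀ (c : ℂ) (f : SchwartzMap ℂ ℂ) (z : ℂ), A (c • f) z = c * A f z) →
  (∀ f : SchwartzMap ℂ ℂ, Continuous (A f)) →
  ∀ p₀ p₁ p θ K₀ K₁ : ℝ, 2 ≤ p₀ → p₀ < p → p < p₁ → 1 / p = (1 - θ) / p₀ + θ / p₁ → 0 < K₀ → 0 < K₁ →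
  (∀ f : SchwartzMap ℂ ℂ, ∫⁻ z, ‖A f z‖ₑ ^ p₀ ≤ ENNReal.ofReal K₀ ^ p₀ * ∫⁻ z, ‖f z‖ₑ ^ p₀) →
  (∀ f : SchwartzMap ℂ ℂ, ∫⁻ z, ‖A f z‖ₑ ^ p₁ ≤ ENNReal.ofReal K₁ ^ p₁ * ∫⁻ z, ‖f z‖ₑ ^ p₁) →
  ∀ f : SchwartzMap ℂ ℂ, ∫⁻ z, ‖A f z‖ₑ ^ p ≤
    ENNReal.ofReal (K₀ ^ (1 - θ) * K₁ ^ θ) ^ p * ∫⁻ z, ‖f z‖ₑ ^ p

/-- LIM: the limit `P → ∞`. -/
def S_LIM : Prop := ∀ n l : ℕ, Tendsto (fun P : ℝ => KP n l P) atTop (𝓝 (KI n l))

/-- ROT: on the class of angular type `-l` the operator is `T ^ n`. -/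
def S_ROT : Prop := ∀ (n l : ℕ) (f : SchwartzMap ℂ ℂ), Typ l f → ∀ z, AA n l f z = TS n f z

/-- NUM: numerical inequalities. -/
def S_NUM : Prop := ∀ (n : ℕ) (p : ℝ), 1 ≤ n → 2 ≤ p →
  (4 * (n : ℝ) ^ (3 / 4 : ℝ)) ^ (1 - 2 / p) ≤ (n : ℝ) ^ (1 - 2 / p) * (p - 1) ∧
  (4 * (n : ℝ) ^ (3 / 4 : ℝ)) ^ (1 - 2 / p) ≤
    (ascPochhammer ℝ n).eval (1 - 1 / p) / (ascPochhammer ℝ n).eval (1 / p)

/-- the final bound -/
def S_FIN : Prop := ∀ (n l : ℕ) (p : ℝ), 1 ≤ n → 2 ≤ p → ∀ f : SchwartzMap ℂ ℂ, Typ l f →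
  eLpNorm (TS n f) (ENNReal.ofReal p) volume ≤
    ENNReal.ofReal ((4 * (n : ℝ) ^ (3 / 4 : ℝ)) ^ (1 - 2 / p)) *
      eLpNorm (fun z : ℂ => f z) (ENNReal.ofReal p) volume

end Pool.Agent.U307.RAD
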