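import Pool.Agent.U307.RAD.Main2
import Pool.Agent.U307.RAD.Asm4
import Pool.Agent.U283.RAD.CD
import Pool.Agent.U187.RAD.LEG
import Pool.Agent.U606.RAD.WIN
import Pool.Agent.U416.RAD.CUT

/-! Project RAD: all parts of the fourth part together. -/

set_option autoImplicit false

open MeasureTheory Filter Topology Set
open scoped ENNReal SchwartzMap ComplexConjugate

namespace Pool.Agent.U307.RAD

theorem fin4' : S_FIN4 := Asm4.fin4 (Pool.Agent.U606.RAD.t_WIN Pool.Agent.U187.RAD.t_LEG Pool.Agent.U283.RAD.t_CD mom)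
  (Pool.Agent.U416.RAD.t_CUT frm)
  Pool.Agent.U869.RAD.L2.t_L2 Pool.Agent.U99.RAD.t_LIN
  Pool.Agent.U461.RAD.t_RT2 Pool.Agent.U690.RAD.t_SYM Pool.Agent.U690.RAD.t_TB
  Pool.Agent.U864.RAD.t_PRJ Pool.Agent.U608.RAD.SUP.t_SUP ts2

/-- the type `2 n` on annuli -/
theorem ann4 (n : ℕ) (p a b M : ℝ) (hn : 1 ≤ n) (hp : 2 ≤ p) (ha : 0 < a) (hab : a ≤ b)
    (hM : 2 + 4 * Real.log (b / a) < M)
    (f : SchwartzMap ℂ ℂ) (hf : ∀ c z : ℂ, ‖c‖ = 1 → f (c * z) = c ^ (2 * n) * f z)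
    (hs : ∀ z, f z ≠ 0 → a ≤ ‖z‖ ∧ ‖z‖ ≤ b) :
    eLpNorm (TS n f) (ENNReal.ofReal p) volume ≤
      ENNReal.ofReal ((n * M) ^ (1 - 2 / p)) *
        eLpNorm (fun z : ℂ => f z) (ENNReal.ofReal p) volume :=
  Typ.to_eLp (by linarith) (fin4' n p a b M hn hp ha hab hM f hf hs)

/-- the exponent of the question -/
theorem pow4 (p : ℝ) (hp : 2 < p) : ((p - 1) ^ (p / (p - 2))) ^ (1 - 2 / p) = p - 1 := by
  rw [← Real.rpow_mul (by linarith)]
  have e : p / (p - 2) * (1 - 2 / p) = 1 := by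
    have h1 : p - 2 ≠ 0 := by linarith
    have h2 : p ≠ 0 := by linarith
    field_simp
  rw [e, Real.rpow_one]

theorem pow4' (p : ℝ) (hp : 2 < p) : 13 / 2 ≤ (p - 1) ^ (p / (p - 2)) ∧
    p - 1 ≤ (p - 1) ^ (p / (p - 2)) := by
  have h1 := (num2 1 p le_rfl hp.le).1
  have h2 : (13 / 2 : ℝ) ^ (1 - 2 / p) ≤ p - 1 := by simpa using h1
  have hp0 : 0 < p - 2 := by linarith
  have h3 : 0 < p / (p - 2) := by positivity
  constructor
  · have h4 := Real.rpow_le_rpow (by positivity) h2 h3.le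
    rw [← Real.rpow_mul (by norm_num)] at h4
    have e : (1 - 2 / p) * (p / (p - 2)) = 1 := by
      have h1 : p - 2 ≠ 0 := by linarith
      have h2 : p ≠ 0 := by linarith
      field_simp
    rwa [e, Real.rpow_one] at h4
  · calc p - 1 = (p - 1) ^ (1 : ℝ) := (Real.rpow_one _).symm
      _ ≤ (p - 1) ^ (p / (p - 2)) := by
        refine Real.rpow_le_rpow_of_exponent_le (by linarith) ?_
        rw [le_div_iff₀ hp0]
        linarith

end Pool.Agent.U307.RAD
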