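import Pool.Agent.U307.RAD.Stm

/-!
# Project RAD, second part: angular types above `n`

`T ^ n` maps the functions of angular type `2 n + l`, `l ≥ 1`, to type `l`; by duality its norm on `L^p`
there is its norm on `L^q` on the type `-l`, and `‖AA n l f‖_q ≤ (1 + ∫ |uu| r ^ (1 - 2/q)) ‖f‖_q`
with `r ^ (1 - 2/q) ≤ 1/r`. With the explicit energies EU this gives the constant
`(6.5 n) ^ (1 - 2/p)` if `l ≥ 2` and `log n ≤ 2 l`. Types between `n` and `2 n` are reduced to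
`T ^ (m - n)` on the same type `m` by a reflection. So the inequality of the question holds for all types
`m ≤ n` and all types with `|m - 2 n| ≥ 2`, `log n ≤ 2 |m - 2 n|`.
-/

set_option autoImplicit false

open MeasureTheory Filter Topology Set
open scoped ENNReal SchwartzMap ComplexConjugate

namespace Pool.Agent.U307.RAD

/-- the bound near `L¹` -/
noncomputable def KU (n l : ℕ) : ℝ := 1 + ∫ r in (0 : ℝ)..1, |uu n l r| / r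

/-- functions of angular type `m` -/
def Tm (m : ℕ) (f : ℂ → ℂ) : Prop := ∀ a z : ℂ, ‖a‖ = 1 → f (a * z) = a ^ m * f z

/-- LQ: the bound on `L^q`, `1 < q ≤ 2`. -/
def S_LQ : Prop := ∀ n l : ℕ, 1 ≤ n → 1 ≤ l → ∀ q : ℝ, 1 < q → q ≤ 2 → ∀ f : SchwartzMap ℂ ℂ,
  ∫⁻ z, ‖AA n l f z‖ₑ ^ q ≤ ENNReal.ofReal (KU n l) ^ q * ∫⁻ z, ‖f z‖ₑ ^ q

/-- RT2: Riesz and Thorin between `p₀ < 2` and `2`. -/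
def S_RT2 : Prop := ∀ A : SchwartzMap ℂ ℂ → ℂ → ℂ,
  (∀ (f g : SchwartzMap ℂ ℂ) (z : ℂ), A (f + g) z = A f z + A g z) →
  (∀ (c : ℂ) (f : SchwartzMap ℂ ℂ) (z : ℂ), A (c • f) z = c * A f z) →
  (∀ f : SchwartzMap ℂ ℂ, Continuous (A f)) →
  ∀ p₀ p θ K₀ K₁ : ℝ, 1 < p₀ → p₀ < p → p < 2 → 1 / p = (1 - θ) / p₀ + θ / 2 → 0 < K₀ → 0 < K₁ →
  (∀ f : SchwartzMap ℂ ℂ, ∫⁻ z, ‖A f z‖ₑ ^ p₀ ≤ ENNReal.ofReal K₀ ^ p₀ * ∫⁻ z, ‖f z‖ₑ ^ p₀) →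
  (∀ f : SchwartzMap ℂ ℂ, ∫⁻ z, ‖A f z‖ₑ ^ (2 : ℝ) ≤
    ENNReal.ofReal K₁ ^ (2 : ℝ) * ∫⁻ z, ‖f z‖ₑ ^ (2 : ℝ)) →
  ∀ f : SchwartzMap ℂ ℂ, ∫⁻ z, ‖A f z‖ₑ ^ p ≤
    ENNReal.ofReal (K₀ ^ (1 - θ) * K₁ ^ θ) ^ p * ∫⁻ z, ‖f z‖ₑ ^ p

/-- SYM: the operator is symmetric for the bilinear form. -/
def S_SYM : Prop := ∀ (n : ℕ) (f h : SchwartzMap ℂ ℂ), ∫ z, TS n f z * h z = ∫ z, f z * TS n h z

/-- PRJ: only the component of type `-m` counts. -/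
def S_PRJ : Prop := ∀ (m : ℕ) (f : SchwartzMap ℂ ℂ), Tm m f → ∀ G : ℂ → ℂ, Continuous G →
  (∃ B : ℝ, ∀ z, ‖G z‖ ≤ B) → ∫ z, f z * G z = ∫ z, f z * PP m G z

/-- SUP: the `L^p` norm by duality with Schwartz functions. -/
def S_SUP : Prop := ∀ p q : ℝ, 2 < p → 1 / p + 1 / q = 1 → ∀ G : ℂ → ℂ, Continuous G →
  (∃ B : ℝ, ∀ z, ‖G z‖ ≤ B) → ∀ C : ℝ, 0 ≤ C →
  (∀ h : SchwartzMap ℂ ℂ, ‖∫ z, G z * h z‖ₑ ≤ ENNReal.ofReal C * (∫⁻ z, ‖h z‖ₑ ^ q) ^ (1 / q)) →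
  ∫⁻ z, ‖G z‖ₑ ^ p ≤ ENNReal.ofReal C ^ p

/-- EU: two more energies. -/
def S_EU : Prop := ∀ n l : ℕ, 1 ≤ n →
  (1 ≤ l → ∫ r in (0 : ℝ)..1, uu n l r ^ 2 * (1 - r ^ 2) ^ 2 / r =
    4 * (n : ℝ) ^ 2 * (n + l) / (l * (2 * n + l))) ∧
  (2 ≤ l → ∫ r in (0 : ℝ)..1, uu n l r ^ 2 * (1 - r ^ 2) ^ 2 / r ^ 3 =
    4 * (n : ℝ) ^ 2 * (n + l) ^ 2 / (l * ((l : ℝ) ^ 2 - 1)))

/-- KU: the constant. -/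
def S_KU : Prop := ∀ n l : ℕ, 1 ≤ n → 2 ≤ l → Real.log n ≤ 2 * l → KU n l ≤ 13 / 2 * n

/-- NUM2: numerical inequalities. -/
def S_NUM2 : Prop := ∀ (n : ℕ) (p : ℝ), 1 ≤ n → 2 ≤ p →
  (13 / 2 * (n : ℝ)) ^ (1 - 2 / p) ≤ (n : ℝ) ^ (1 - 2 / p) * (p - 1) ∧
  (13 / 2 * (n : ℝ)) ^ (1 - 2 / p) ≤
    (ascPochhammer ℝ n).eval (1 - 1 / p) / (ascPochhammer ℝ n).eval (1 / p)

/-- TB: `T ^ n f` is bounded and continuous. -/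
def S_TB : Prop := ∀ (n : ℕ) (f : SchwartzMap ℂ ℂ), Continuous (TS n f) ∧ ∃ B : ℝ, ∀ z, ‖TS n f z‖ ≤ B

/-- the bound for the types `2 n + l` -/
def S_FIN2 : Prop := ∀ (n l : ℕ) (p : ℝ), 1 ≤ n → 2 ≤ l → Real.log n ≤ 2 * l → 2 ≤ p →
  ∀ f : SchwartzMap ℂ ℂ, Tm (2 * n + l) f →
  ∫⁻ z, ‖TS n f z‖ₑ ^ p ≤ ENNReal.ofReal ((13 / 2 * (n : ℝ)) ^ (1 - 2 / p)) ^ p * ∫⁻ z, ‖f z‖ₑ ^ p

end Pool.Agent.U307.RAD
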