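import Pool.Agent.U307.RAD.Stm3
import Pool.Agent.U307.RAD.Asm2

/-! Project RAD: assembly of the third part. -/

set_option autoImplicit false

open MeasureTheory Filter Topology Set
open scoped ENNReal SchwartzMap ComplexConjugate

namespace Pool.Agent.U307.RAD

theorem gg_cont (n l : ℕ) : Continuous (gg n l) := by
  unfold gg
  fun_prop

theorem vv (hFT : S_FT) (hINT : S_INT) (hPLA : S_PLA) (hIGR : S_IGR) (n l : ℕ) (hl : 1 ≤ l) :
    ∫ y in Ioi (0 : ℝ), ((y - y0 n l) * gg n l y) ^ 2 ≤ 46 / (Real.pi * l) + 4 / (l : ℝ) ^ 3 := by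
  have hl0 : (0 : ℝ) < l := by exact_mod_cast hl
  have hk : (0 : ℝ) < (l : ℝ) / 2 := by positivity
  obtain ⟨h1, h2, h3, h4⟩ := hIGR n l (y0 n l) hl
  obtain ⟨hi, hb⟩ := hINT ((l : ℝ) / 2) hk
  have key := hPLA (fun y => (y - y0 n l) * gg n l y)
    ((continuous_id.sub continuous_const).mul (gg_cont n l)) h3 h4 (ww ((l : ℝ) / 2)) hi
    (fun t => hFT n l t hl)
  refine key.trans ?_
  have hpi := Real.pi_pos
  calc 1 / (2 * Real.pi) * ∫ t, ww ((l : ℝ) / 2) t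
      ≤ 1 / (2 * Real.pi) * (46 / ((l : ℝ) / 2) + Real.pi / ((l : ℝ) / 2) ^ 3) := by gcongr
    _ = 46 / (Real.pi * l) + 4 / (l : ℝ) ^ 3 := by
        field_simp
        ring

theorem pb (hFT : S_FT) (hINT : S_INT) (hPLA : S_PLA) (hIGR : S_IGR) (hNRM : S_NRM) (hCAR : S_CAR)
    (hCV : S_CV) : S_PB := by
  intro n l hl
  have hl0 : (0 : ℝ) < l := by exact_mod_cast hl
  have hpi := Real.pi_pos
  obtain ⟨h1, h2, h3, h4⟩ := hIGR n l (y0 n l) hl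
  have key := hCAR (gg n l) (y0 n l) (1 / l) (46 / (Real.pi * l) + 4 / (l : ℝ) ^ 3) (by positivity)
    (by positivity) (gg_cont n l) h1 h2 h4 (hNRM n l hl).le (vv hFT hINT hPLA hIGR n l hl)
  rw [hCV n l hl]
  have e : 2 * (1 / 2 * ∫ y in Ioi (0 : ℝ), |gg n l y|) = ∫ y in Ioi (0 : ℝ), |gg n l y| := by ring
  rw [e]
  exact key

theorem ku3 (hKU : S_KU) (hB : S_KBIG) (h1 : S_KONE) (n l : ℕ) (hn : 1 ≤ n) (hl : 1 ≤ l) :
    KU n l ≤ 13 / 2 * n := by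
  rcases hl.eq_or_lt with h | h
  · subst h
    rcases le_or_gt n 220 with h2 | h2
    · exact h1 n hn h2
    · exact hB n 1 le_rfl (fun _ => by omega) (fun h3 => by omega)
  · rcases le_or_gt (Real.log n) (2 * l) with h2 | h2
    · exact hKU n l hn h h2
    · exact hB n l hl (fun h3 => by omega) (fun _ => h2)

theorem fin3 (hLQ : S_LQ) (hL2 : S_L2) (hLIN : S_LIN) (hRT : S_RT2) (hSYM : S_SYM) (hTB : S_TB)
    (hPRJ : S_PRJ) (hSUP : S_SUP) (hKU : ∀ n l : ℕ, 1 ≤ n → 1 ≤ l → KU n l ≤ 13 / 2 * n)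
    (hTS2 : ∀ (n : ℕ) (f : SchwartzMap ℂ ℂ), ∫⁻ z, ‖TS n f z‖ₑ ^ (2 : ℝ) ≤ ∫⁻ z, ‖f z‖ₑ ^ (2 : ℝ)) :
    S_FIN3 := by
  intro n l p hn hl hp f hf
  rcases hp.eq_or_lt with h | hp2
  · rw [← h]
    norm_num
    simpa using hTS2 n f
  · refine (up_bound hLQ hL2 hLIN hRT hSYM hTB hPRJ hSUP n l p hn hl hp2 f hf).trans ?_
    have h1 : KU n l ^ (1 - 2 / p) ≤ (13 / 2 * (n : ℝ)) ^ (1 - 2 / p) := by
      refine Real.rpow_le_rpow (by linarith [KU_pos n l]) (hKU n l hn hl) ?_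
      rw [sub_nonneg, div_le_one (by linarith)]
      linarith
    gcongr

end Pool.Agent.U307.RAD
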