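import Pool.Agent.U307.RAD.Stm

/-! Project RAD: functions of angular type `m ≤ n`. -/

set_option autoImplicit false

open MeasureTheory Filter Topology Set
open scoped ENNReal SchwartzMap ComplexConjugate

namespace Pool.Agent.U307.RAD.Cnj

/-- the Fourier transform in `TS` -/
noncomputable def FT (f : ℂ → ℂ) (ξ : ℂ) : ℂ :=
  ∫ w : ℂ, Complex.exp (-(2 * (Real.pi : ℂ) * Complex.I *
        ((w.re * ξ.re + w.im * ξ.im : ℝ) : ℂ))) * f w

theorem FT_conj (m : ℕ) (f : ℂ → ℂ) (hf : ∀ a z : ℂ, ‖a‖ = 1 → f (a * z) = a ^ m * f z) (ξ : ℂ)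
    (hξ : ξ ≠ 0) : FT (fun z => f (conj z)) ξ = (conj ξ / ξ) ^ m * FT f ξ := by
  set a : ℂ := conj ξ / ξ with ha
  have ha1 : ‖a‖ = 1 := by
    rw [ha, norm_div, RCLike.norm_conj, div_self (norm_ne_zero_iff.2 hξ)]
  have e1 : FT (fun z => f (conj z)) ξ = FT f (conj ξ) := by
    unfold FT
    have h := (Complex.conjLIE.measurePreserving).integral_comp
      (Complex.conjLIE.toHomeomorph.measurableEmbedding)
      (fun w : ℂ => Complex.exp (-(2 * (Real.pi : ℂ) * Complex.I *
        ((w.re * (conj ξ).re + w.im * (conj ξ).im : ℝ) : ℂ))) * f w)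
    rw [← h]
    refine integral_congr_ae (Eventually.of_forall fun w => ?_)
    simp only [Complex.conjLIE_apply, Complex.conj_re, Complex.conj_im]
    congr 4
    push_cast
    ring
  rw [e1]
  have h := ((rotation (Circle.ofConjDivSelf ξ hξ)).measurePreserving).integral_comp
      ((rotation (Circle.ofConjDivSelf ξ hξ)).toHomeomorph.measurableEmbedding)
      (fun w : ℂ => Complex.exp (-(2 * (Real.pi : ℂ) * Complex.I *
        ((w.re * (conj ξ).re + w.im * (conj ξ).im : ℝ) : ℂ))) * f w)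
  unfold FT
  rw [← h, ← integral_const_mul]
  refine integral_congr_ae (Eventually.of_forall fun w => ?_)
  have e2 : (rotation (Circle.ofConjDivSelf ξ hξ)) w = a * w := by
    rw [rotation_apply]
    rfl
  have hn : (Complex.normSq ξ : ℝ) ≠ 0 := by
    rwa [Ne, Complex.normSq_eq_zero]
  have e3 : (a * w).re * (conj ξ).re + (a * w).im * (conj ξ).im = w.re * ξ.re + w.im * ξ.im := by
    have h1 : ∀ u v : ℂ, u.re * v.re + u.im * v.im = (u * conj v).re := by
      intro u v
      simp [Complex.mul_re]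
    rw [h1, h1, Complex.conj_conj]
    congr 1
    rw [ha]
    field_simp
  simp only [e2]
  rw [e3, hf a w ha1]
  ring

theorem main (n m : ℕ) (hm : m ≤ n) (f g : SchwartzMap ℂ ℂ) (hg : ∀ z, g z = f (conj z))
    (hf : ∀ a z : ℂ, ‖a‖ = 1 → f (a * z) = a ^ m * f z) (z : ℂ) : TS n f z = TS (n - m) g z := by
  unfold TS
  refine integral_congr_ae ?_
  have h0 : ∀ᵐ ξ : ℂ, ξ ≠ 0 := by
    have : (volume : Measure ℂ) {0} = 0 := measure_singleton 0
    rw [ae_iff]
    simpa using this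
  filter_upwards [h0] with ξ hξ
  have h := FT_conj m f hf ξ hξ
  have e : (fun w : ℂ => Complex.exp (-(2 * (Real.pi : ℂ) * Complex.I *
        ((w.re * ξ.re + w.im * ξ.im : ℝ) : ℂ))) * g w) = fun w : ℂ =>
        Complex.exp (-(2 * (Real.pi : ℂ) * Complex.I *
        ((w.re * ξ.re + w.im * ξ.im : ℝ) : ℂ))) * f (conj w) := by
    funext w
    rw [hg]
  rw [e]
  unfold FT at h
  rw [h]
  have e2 : (conj ξ / ξ) ^ n = (conj ξ / ξ) ^ (n - m) * (conj ξ / ξ) ^ m := by
    rw [← pow_add, Nat.sub_add_cancel hm]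
  rw [e2]
  ring

end Pool.Agent.U307.RAD.Cnj
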