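import Pool.Agent.U307.RAD.Cnj

/-! Project RAD: functions of angular type `m ≥ n`. -/

set_option autoImplicit false

open MeasureTheory Filter Topology Set
open scoped ENNReal SchwartzMap ComplexConjugate

namespace Pool.Agent.U307.RAD.Cnj

theorem FT_cc (f : ℂ → ℂ) (ξ : ℂ) : FT (fun z => conj (f (conj z))) ξ =
    conj (FT (fun z => f (conj z)) (-ξ)) := by
  unfold FT
  rw [← integral_conj]
  refine integral_congr_ae (Eventually.of_forall fun w => ?_)
  simp only [map_mul]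
  congr 1
  rw [← Complex.exp_conj]
  congr 1
  simp only [map_neg, map_mul, Complex.conj_ofReal, Complex.conj_I, map_ofNat, Complex.neg_re,
    Complex.neg_im]
  push_cast
  ring

theorem main2 (n m : ℕ) (hm : n ≤ m) (f g : SchwartzMap ℂ ℂ) (hg : ∀ z, g z = conj (f (conj z)))
    (hf : ∀ a z : ℂ, ‖a‖ = 1 → f (a * z) = a ^ m * f z) (z : ℂ) :
    TS n f z = conj (TS (m - n) g z) := by
  unfold TS
  rw [← integral_conj]
  have h0 : ∀ᵐ ξ : ℂ, ξ ≠ 0 := by
    have : (volume : Measure ℂ) {0} = 0 := measure_singleton 0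
    rw [ae_iff]
    simpa using this
  rw [← integral_neg_eq_self (fun ξ : ℂ => (starRingEnd ℂ) (Complex.exp (2 * (Real.pi : ℂ) *
    Complex.I * ((z.re * ξ.re + z.im * ξ.im : ℝ) : ℂ)) *
    ((starRingEnd ℂ ξ / ξ) ^ (m - n) *
      ∫ w : ℂ, Complex.exp (-(2 * (Real.pi : ℂ) * Complex.I *
        ((w.re * ξ.re + w.im * ξ.im : ℝ) : ℂ))) * g w)))]
  refine integral_congr_ae ?_
  filter_upwards [h0] with ξ hξ
  have h := FT_conj m f hf ξ hξ
  have h2 := FT_cc f (-ξ)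
  rw [neg_neg, h] at h2
  have e : (fun w : ℂ => Complex.exp (-(2 * (Real.pi : ℂ) * Complex.I *
        ((w.re * (-ξ).re + w.im * (-ξ).im : ℝ) : ℂ))) * g w) = fun w : ℂ =>
        Complex.exp (-(2 * (Real.pi : ℂ) * Complex.I *
        ((w.re * (-ξ).re + w.im * (-ξ).im : ℝ) : ℂ))) * conj (f (conj w)) := by
    funext w
    rw [hg]
  rw [e]
  have h3 : (∫ w : ℂ, Complex.exp (-(2 * (Real.pi : ℂ) * Complex.I *
        ((w.re * (-ξ).re + w.im * (-ξ).im : ℝ) : ℂ))) * conj (f (conj w))) =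
        conj ((conj ξ / ξ) ^ m * FT f ξ) := h2
  rw [h3]
  have h4 : (∫ w : ℂ, Complex.exp (-(2 * (Real.pi : ℂ) * Complex.I *
        ((w.re * ξ.re + w.im * ξ.im : ℝ) : ℂ))) * f w) = FT f ξ := rfl
  rw [h4]
  simp only [map_mul, map_pow, map_div₀, Complex.conj_conj, map_neg, neg_div_neg_eq]
  rw [← Complex.exp_conj]
  have hc : conj ξ ≠ 0 := by simpa using hξ
  have e2 : (ξ / conj ξ) ^ (m - n) * ((conj ξ / ξ) ^ m * FT f ξ) = (conj ξ / ξ) ^ n * FT f ξ := by
    have e3 : (conj ξ / ξ) ^ m = (conj ξ / ξ) ^ (m - n) * (conj ξ / ξ) ^ n := by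
      rw [← pow_add, Nat.sub_add_cancel hm]
    rw [e3]
    have e4 : (ξ / conj ξ) ^ (m - n) * (conj ξ / ξ) ^ (m - n) = 1 := by
      rw [← mul_pow, div_mul_div_comm, mul_comm ξ, div_self (mul_ne_zero hc hξ), one_pow]
    calc _ = ((ξ / conj ξ) ^ (m - n) * (conj ξ / ξ) ^ (m - n)) * ((conj ξ / ξ) ^ n * FT f ξ) := by ring
      _ = _ := by rw [e4, one_mul]
  rw [e2]
  congr 2
  simp only [map_mul, Complex.conj_ofReal, Complex.conj_I, map_ofNat, Complex.neg_re, Complex.neg_im]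
  push_cast
  ring

end Pool.Agent.U307.RAD.Cnj
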