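import Pool.Agent.U307.RAD.Typ
import Pool.Agent.U128.RAD.PF
import Pool.Agent.U37.RAD.MOM
import Pool.Agent.U94.RAD.EN
import Pool.Agent.U608.RAD.L1
import Pool.Agent.U380.RAD.BES
import Pool.Agent.U338.RAD.FRM
import Pool.Agent.U56.RAD.LP
import Pool.Agent.U869.RAD.L2
import Pool.Agent.U99.RAD.LIN
import Pool.Agent.U882.RAD.RT
import Pool.Agent.U255.RAD.ROT
import Pool.Agent.U723.RAD.NUM

/-! Project RAD: all parts together. -/

set_option autoImplicit false

open MeasureTheory Filter Topology Set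
open scoped ENNReal SchwartzMap ComplexConjugate

namespace Pool.Agent.U307.RAD

theorem pf : S_PF := Pool.Agent.U128.RAD.PF.t_PF
theorem mom : S_MOM := Pool.Agent.U37.RAD.t_MOM pf
theorem en : S_EN := Pool.Agent.U94.RAD.EN.t_EN pf mom
theorem l1 : S_L1 := Pool.Agent.U608.RAD.L1.t_L1 mom en
theorem bes : S_BES := Pool.Agent.U380.RAD.t_BES mom
theorem frm : S_FRM := Pool.Agent.U338.RAD.FRM.t_FRM bes
theorem lp : S_LP := Pool.Agent.U56.RAD.t_LP frm
theorem fin' : S_FIN := fin lp Pool.Agent.U869.RAD.L2.t_L2 Pool.Agent.U99.RAD.t_LIN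
  Pool.Agent.U882.RAD.t_RT Pool.Agent.U99.RAD.t_LIM Pool.Agent.U255.RAD.t_ROT l1
theorem num : S_NUM := Pool.Agent.U723.RAD.NUM.t_NUM

end Pool.Agent.U307.RAD
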