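import Pool.Agent.U307.RAD.Typ
import Pool.Agent.U307.RAD.Cnj2
import Pool.Agent.U307.RAD.Stm2

/-! Project RAD: all angular types outside of the window around `2 n`. -/

set_option autoImplicit false

open MeasureTheory Filter Topology Set
open scoped ENNReal SchwartzMap ComplexConjugate FourierTransform

namespace Pool.Agent.U307.RAD.Typ

/-- the Schwartz function `z ↦ conj (f (conj z))` -/
noncomputable def cc (f : SchwartzMap ℂ ℂ) : SchwartzMap ℂ ℂ where
  toFun := fun z => conj (cj f z)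
  smooth' := (Complex.conjCLE.contDiff).comp (cj f).smooth'
  decay' := by
    intro k j
    obtain ⟨C, hC⟩ := (cj f).decay' k j
    refine ⟨C, fun x => ?_⟩
    have h := Complex.conjLIE.norm_iteratedFDeriv_comp_left (f := fun z => cj f z) (x := x) j
    have h2 : (fun z => conj (cj f z)) = (Complex.conjLIE ∘ fun z => cj f z) := rfl
    rw [h2, h]
    exact hC x

theorem cc_apply (f : SchwartzMap ℂ ℂ) (z : ℂ) : cc f z = conj (f (conj z)) := rfl

theorem cc_norm (f : SchwartzMap ℂ ℂ) (p : ℝ≥0∞) :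
    eLpNorm (fun z => cc f z) p volume = eLpNorm (fun z : ℂ => f z) p volume := by
  rw [← cj_norm f p]
  refine eLpNorm_congr_norm_ae (Eventually.of_forall fun z => ?_)
  exact RCLike.norm_conj _

theorem to_eLp {p K : ℝ} (hp0 : 0 < p) {F G : ℂ → ℂ}
    (h : ∫⁻ z, ‖F z‖ₑ ^ p ≤ ENNReal.ofReal K ^ p * ∫⁻ z, ‖G z‖ₑ ^ p) :
    eLpNorm F (ENNReal.ofReal p) volume ≤ ENNReal.ofReal K * eLpNorm G (ENNReal.ofReal p) volume := by
  have hp' : ENNReal.ofReal p ≠ 0 := by
    rw [Ne, ENNReal.ofReal_eq_zero, not_le]; exact hp0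
  rw [eLpNorm_eq_lintegral_rpow_enorm_toReal hp' ENNReal.ofReal_ne_top,
    eLpNorm_eq_lintegral_rpow_enorm_toReal hp' ENNReal.ofReal_ne_top, ENNReal.toReal_ofReal hp0.le]
  have h1 : ENNReal.ofReal K * (∫⁻ x, ‖G x‖ₑ ^ p) ^ (1 / p) =
      (ENNReal.ofReal K ^ p * ∫⁻ x, ‖G x‖ₑ ^ p) ^ (1 / p) := by
    rw [ENNReal.mul_rpow_of_nonneg _ _ (by positivity), ← ENNReal.rpow_mul,
      mul_one_div_cancel hp0.ne', ENNReal.rpow_one]
  rw [h1]
  exact ENNReal.rpow_le_rpow h (by positivity)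

/-- all types `m ≤ n` and all types with `|m - 2 n| ≥ 2`, `log n ≤ 2 |m - 2 n|` -/
theorem all (hF : S_FIN) (hF2 : S_FIN2) (n : ℕ) (m : ℤ) (p : ℝ) (hn : 1 ≤ n) (hp : 2 ≤ p)
    (hm : m ≤ n ∨ (2 ≤ |m - 2 * n| ∧ Real.log n ≤ 2 * |((m - 2 * n : ℤ) : ℝ)|))
    (f : SchwartzMap ℂ ℂ) (hf : ∀ a z : ℂ, ‖a‖ = 1 → f (a * z) = a ^ m * f z) :
    eLpNorm (TS n f) (ENNReal.ofReal p) volume ≤
      ENNReal.ofReal ((13 / 2 * (n : ℝ)) ^ (1 - 2 / p)) *
        eLpNorm (fun z : ℂ => f z) (ENNReal.ofReal p) volume := by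
  have hp0 : 0 < p := by linarith
  have hs : 0 ≤ 1 - 2 / p := by
    rw [sub_nonneg, div_le_one hp0]
    exact hp
  have hn1 : (1 : ℝ) ≤ n := by exact_mod_cast hn
  rcases le_or_gt m n with h | h
  · refine (fin hF n m p hn h hp f hf).trans ?_
    have h1 : 4 * (n : ℝ) ^ (3 / 4 : ℝ) ≤ 13 / 2 * n := by
      have : (n : ℝ) ^ (3 / 4 : ℝ) ≤ (n : ℝ) ^ (1 : ℝ) :=
        Real.rpow_le_rpow_of_exponent_le hn1 (by norm_num)
      rw [Real.rpow_one] at this
      linarith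
    have h2 : (4 * (n : ℝ) ^ (3 / 4 : ℝ)) ^ (1 - 2 / p) ≤ (13 / 2 * (n : ℝ)) ^ (1 - 2 / p) :=
      Real.rpow_le_rpow (by positivity) h1 hs
    gcongr
  · obtain ⟨k, rfl⟩ : ∃ k : ℕ, m = (k : ℤ) := ⟨m.natAbs, by omega⟩
    have hnk : n < k := by exact_mod_cast h
    have hf' : Tm k f := by
      intro a z ha
      rw [hf a z ha, zpow_natCast]
    obtain ⟨h2, hlog⟩ : 2 ≤ |(k : ℤ) - 2 * n| ∧ Real.log n ≤ 2 * |(((k : ℤ) - 2 * n : ℤ) : ℝ)| := by
      rcases hm with h' | h'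
      · omega
      · exact h'
    rcases le_or_gt (2 * n) k with h3 | h3
    · obtain ⟨l, rfl⟩ : ∃ l : ℕ, k = 2 * n + l := ⟨k - 2 * n, by omega⟩
      have e : (((2 * n + l : ℕ) : ℤ) - 2 * n) = (l : ℤ) := by push_cast; ring
      rw [e] at h2 hlog
      have hl2 : 2 ≤ l := by
        rw [Nat.abs_cast] at h2
        exact_mod_cast h2
      have hlog' : Real.log n ≤ 2 * l := by
        have : |((l : ℤ) : ℝ)| = l := by
          rw [Int.cast_natCast, Nat.abs_cast]
        rwa [this] at hlog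
      exact to_eLp hp0 (hF2 n l p hn hl2 hlog' hp f hf')
    · obtain ⟨l, hl⟩ : ∃ l : ℕ, 2 * n = k + l := ⟨2 * n - k, by omega⟩
      have hlz : (2 : ℤ) * n = k + l := by exact_mod_cast hl
      have e : ((k : ℤ) - 2 * n) = -(l : ℤ) := by rw [hlz]; ring
      rw [e, abs_neg, Nat.abs_cast] at h2
      rw [e, Int.cast_neg, abs_neg, Int.cast_natCast, Nat.abs_cast] at hlog
      have hl2 : 2 ≤ l := by exact_mod_cast h2
      have hk : k = 2 * (k - n) + l := by omega
      have hT : Tm (2 * (k - n) + l) (fun z => cc f z) := by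
        rw [← hk]
        intro a z ha
        simp only [cc_apply, map_mul]
        rw [hf' _ _ (by rwa [RCLike.norm_conj])]
        simp
      have hkn : 1 ≤ k - n := by omega
      have hkn' : ((k - n : ℕ) : ℝ) ≤ n := by
        have : k - n ≤ n := by omega
        exact_mod_cast this
      have hkn1 : (1 : ℝ) ≤ ((k - n : ℕ) : ℝ) := by exact_mod_cast hkn
      have hlog2 : Real.log ((k - n : ℕ) : ℝ) ≤ 2 * l :=
        (Real.log_le_log (by linarith) hkn').trans hlog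
      have key := to_eLp hp0 (hF2 (k - n) l p hkn hl2 hlog2 hp (cc f) hT)
      have e1 : eLpNorm (TS n f) (ENNReal.ofReal p) volume =
          eLpNorm (TS (k - n) (cc f)) (ENNReal.ofReal p) volume := by
        refine eLpNorm_congr_norm_ae (Eventually.of_forall fun z => ?_)
        rw [Cnj.main2 n k hnk.le f (cc f) (fun z => cc_apply f z) hf' z, RCLike.norm_conj]
      rw [e1, ← cc_norm f]
      refine key.trans ?_
      have h5 : (13 / 2 * ((k - n : ℕ) : ℝ)) ^ (1 - 2 / p) ≤ (13 / 2 * (n : ℝ)) ^ (1 - 2 / p) :=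
        Real.rpow_le_rpow (by positivity) (by linarith) hs
      gcongr

end Pool.Agent.U307.RAD.Typ
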