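import Pool.Agent.U307.RAD.Main
import Pool.Agent.U307.RAD.Asm2
import Pool.Agent.U307.RAD.Typ2
import Pool.Agent.U15.RAD.LQ
import Pool.Agent.U461.RAD.RT2
import Pool.Agent.U690.RAD.SYM
import Pool.Agent.U864.RAD.PRJ
import Pool.Agent.U608.RAD.SUP
import Pool.Agent.U823.RAD.EU
import Pool.Agent.U103.RAD.KU
import Pool.Agent.U15.RAD.NUM2

/-! Project RAD: all parts of the second wave together. -/

set_option autoImplicit false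

open MeasureTheory Filter Topology Set
open scoped ENNReal SchwartzMap ComplexConjugate

namespace Pool.Agent.U307.RAD

theorem ts2 (n : ℕ) (f : SchwartzMap ℂ ℂ) :
    ∫⁻ z, ‖TS n f z‖ₑ ^ (2 : ℝ) ≤ ∫⁻ z, ‖f z‖ₑ ^ (2 : ℝ) := by
  have h := Pool.Agent.N892.BW.PLZ.sq_le n f
  have e : ∀ g : ℂ → ℂ, ∫⁻ z, ‖g z‖ₑ ^ (2 : ℝ) = ∫⁻ z, ‖g z‖ₑ ^ 2 := fun g =>
    lintegral_congr fun z => ENNReal.rpow_two _
  rw [e, e]
  exact h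

theorem eu : S_EU := Pool.Agent.U823.RAD.EU.t_EU
theorem ku : S_KU := Pool.Agent.U103.RAD.KU.t_KU l1 eu
theorem lq : S_LQ := Pool.Agent.U15.RAD.LQ.t_LQ frm
theorem fin2' : S_FIN2 := fin2 lq Pool.Agent.U869.RAD.L2.t_L2 Pool.Agent.U99.RAD.t_LIN
  Pool.Agent.U461.RAD.t_RT2 Pool.Agent.U690.RAD.t_SYM Pool.Agent.U690.RAD.t_TB
  Pool.Agent.U864.RAD.t_PRJ Pool.Agent.U608.RAD.SUP.t_SUP ku ts2
theorem num2 : S_NUM2 := Pool.Agent.U15.RAD.NUM2.t_NUM2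

theorem low (n : ℕ) (m : ℤ) (p : ℝ) (hn : 1 ≤ n) (hm : m ≤ n) (hp : 2 ≤ p)
    (f : SchwartzMap ℂ ℂ) (hf : ∀ a z : ℂ, ‖a‖ = 1 → f (a * z) = a ^ m * f z) :
    eLpNorm (TS n f) (ENNReal.ofReal p) volume ≤
      ENNReal.ofReal ((4 * (n : ℝ) ^ (3 / 4 : ℝ)) ^ (1 - 2 / p)) *
        eLpNorm (fun z : ℂ => f z) (ENNReal.ofReal p) volume :=
  Typ.fin fin' n m p hn hm hp f hf

theorem all (n : ℕ) (m : ℤ) (p : ℝ) (hn : 1 ≤ n) (hp : 2 ≤ p)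
    (hm : m ≤ n ∨ (2 ≤ |m - 2 * n| ∧ Real.log n ≤ 2 * |((m - 2 * n : ℤ) : ℝ)|))
    (f : SchwartzMap ℂ ℂ) (hf : ∀ a z : ℂ, ‖a‖ = 1 → f (a * z) = a ^ m * f z) :
    eLpNorm (TS n f) (ENNReal.ofReal p) volume ≤
      ENNReal.ofReal ((13 / 2 * (n : ℝ)) ^ (1 - 2 / p)) *
        eLpNorm (fun z : ℂ => f z) (ENNReal.ofReal p) volume :=
  Typ.all fin' fin2' n m p hn hp hm f hf

end Pool.Agent.U307.RAD
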