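import Pool.Agent.U307.RAD.Typ3
import Pool.Agent.U56.RAD.LP
import Pool.Agent.U99.RAD.LIN

/-! Project RAD: finite sums of functions of different angular types. -/

set_option autoImplicit false

open MeasureTheory Filter Topology Set
open scoped ENNReal SchwartzMap ComplexConjugate

namespace Pool.Agent.U307.RAD.Sum3

/-- the component of type `m` -/
noncomputable def QQ (m : ℤ) (g : ℂ → ℂ) (z : ℂ) : ℂ :=
  ∫ t in (0 : ℝ)..1, ee t ^ (-m) * g (ee t * z)

theorem QQ_le (m : ℤ) {f : ℂ → ℂ} (hf : Continuous f) {P : ℝ} (hP : 1 < P) :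
    ∫⁻ z, ‖QQ m f z‖ₑ ^ P ≤ ∫⁻ z, ‖f z‖ₑ ^ P := by
  have hc : Continuous fun q : ℂ × ℝ => f (ee q.2 * q.1) := by
    have h1 := Pool.Agent.U56.RAD.ee_cont
    fun_prop
  have h0 : 0 < P := by linarith
  have h1 : ∀ z, ‖QQ m f z‖ₑ ^ P ≤ ∫⁻ t in Ioc (0 : ℝ) 1, ‖f (ee t * z)‖ₑ ^ P := by
    intro z
    have e1 : ‖QQ m f z‖ₑ ≤ ∫⁻ t in Ioc (0 : ℝ) 1, ‖f (ee t * z)‖ₑ := by
      unfold QQ
      rw [intervalIntegral.integral_of_le zero_le_one]
      refine (enorm_integral_le_lintegral_enorm _).trans (le_of_eq ?_)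
      refine lintegral_congr fun t => ?_
      rw [enorm_mul]
      have : ‖ee t ^ (-m)‖ₑ = 1 := by
        rw [← ofReal_norm, norm_zpow, Pool.Agent.U56.RAD.norm_ee, one_zpow, ENNReal.ofReal_one]
      rw [this, one_mul]
    have e2 := Pool.Agent.U56.RAD.jens (volume.restrict (Ioc (0 : ℝ) 1)) hP
      (F := fun t => ‖f (ee t * z)‖ₑ)
      ((hc.comp (Continuous.prodMk continuous_const continuous_id)).enorm.aemeasurable)
    refine (ENNReal.rpow_le_rpow e1 h0.le).trans (e2.trans (le_of_eq ?_))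
    simp
  calc ∫⁻ z, ‖QQ m f z‖ₑ ^ P ≤ ∫⁻ z, ∫⁻ t in Ioc (0 : ℝ) 1, ‖f (ee t * z)‖ₑ ^ P :=
        lintegral_mono h1
    _ = ∫⁻ t in Ioc (0 : ℝ) 1, ∫⁻ z, ‖f (ee t * z)‖ₑ ^ P := by
        refine lintegral_lintegral_swap ?_
        exact (hc.enorm.measurable.pow_const P).aemeasurable
    _ = ∫⁻ t in Ioc (0 : ℝ) 1, ∫⁻ z, ‖f z‖ₑ ^ P := by
        refine lintegral_congr fun t => ?_
        exact Pool.Agent.U56.RAD.lint_rot (ee t) (Pool.Agent.U56.RAD.norm_ee t)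
          (φ := fun z => ‖f z‖ₑ ^ P) (hf.enorm.measurable.pow_const P)
    _ = ∫⁻ z, ‖f z‖ₑ ^ P := by simp

theorem ee_ne (t : ℝ) : ee t ≠ 0 := by
  unfold ee
  exact Complex.exp_ne_zero _

theorem int_ee (j : ℤ) : ∫ t in (0 : ℝ)..1, ee t ^ j = if j = 0 then 1 else 0 := by
  by_cases h : j = 0
  · simp [h]
  · rw [if_neg h]
    have hc : (2 * (Real.pi : ℂ) * Complex.I * j) ≠ 0 := by
      have := Real.pi_ne_zero
      simp [h, Complex.I_ne_zero]
    have e : ∀ t : ℝ, ee t ^ j = Complex.exp ((2 * (Real.pi : ℂ) * Complex.I * j) * t) := by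
      intro t
      unfold ee
      rw [← Complex.exp_int_mul]
      congr 1
      ring
    simp_rw [e]
    rw [integral_exp_mul_complex hc]
    have e1 : Complex.exp (2 * (Real.pi : ℂ) * Complex.I * j * ((1 : ℝ) : ℂ)) = 1 := by
      rw [Complex.exp_eq_one_iff]
      refine ⟨j, ?_⟩
      push_cast
      ring
    rw [e1]
    simp

theorem QQ_sum (s : Finset ℤ) (f : ℤ → SchwartzMap ℂ ℂ)
    (hf : ∀ m ∈ s, ∀ a z : ℂ, ‖a‖ = 1 → f m (a * z) = a ^ m * f m z) (m : ℤ) (hm : m ∈ s) (z : ℂ) :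
    QQ m (fun z => (∑ j ∈ s, f j) z) z = f m z := by
  unfold QQ
  have e1 : ∀ t : ℝ, ee t ^ (-m) * (∑ j ∈ s, f j) (ee t * z) =
      ∑ j ∈ s, ee t ^ (j - m) * f j z := by
    intro t
    rw [SchwartzMap.sum_apply, Finset.mul_sum]
    refine Finset.sum_congr rfl fun j hj => ?_
    rw [hf j hj _ _ (Pool.Agent.U56.RAD.norm_ee t), ← mul_assoc, ← zpow_add₀ (ee_ne t)]
    congr 2
    ring
  simp_rw [e1]
  have hcont : ∀ j : ℤ, Continuous fun t : ℝ => ee t ^ j := fun j =>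
    Pool.Agent.U56.RAD.ee_cont.zpow₀ j fun t => Or.inl (ee_ne t)
  rw [intervalIntegral.integral_finset_sum]
  · have e2 : ∀ j ∈ s, (∫ t in (0 : ℝ)..1, ee t ^ (j - m) * f j z) = if j = m then f j z else 0 := by
      intro j _
      rw [intervalIntegral.integral_mul_const, int_ee]
      by_cases h : j = m
      · simp [h]
      · rw [if_neg h, if_neg (by omega), zero_mul]
    rw [Finset.sum_congr rfl e2, Finset.sum_ite_eq' s m, if_pos hm]
  · intro j _
    exact ((hcont (j - m)).mul continuous_const).intervalIntegrable _ _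

theorem TS_sum (n : ℕ) (s : Finset ℤ) (f : ℤ → SchwartzMap ℂ ℂ) :
    TS n (∑ m ∈ s, f m) = ∑ m ∈ s, TS n (f m) := by
  classical
  induction s using Finset.induction_on with
  | empty =>
    funext z
    have h := Pool.Agent.U99.RAD.TS_smul n 0 (0 : SchwartzMap ℂ ℂ) z
    rw [zero_smul, zero_mul] at h
    simpa using h
  | insert a s ha ih =>
    rw [Finset.sum_insert ha, Finset.sum_insert ha, ← ih]
    funext z
    exact Pool.Agent.U99.RAD.TS_add n _ _ z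

theorem sums (hTB : S_TB) (n : ℕ) (p C : ℝ) (hp : 2 ≤ p) (hC : 0 ≤ C)
    (s : Finset ℤ) (f : ℤ → SchwartzMap ℂ ℂ)
    (hf : ∀ m ∈ s, ∀ a z : ℂ, ‖a‖ = 1 → f m (a * z) = a ^ m * f m z)
    (hb : ∀ m ∈ s, eLpNorm (TS n (f m)) (ENNReal.ofReal p) volume ≤
      ENNReal.ofReal C * eLpNorm (fun z : ℂ => f m z) (ENNReal.ofReal p) volume) :
    eLpNorm (TS n (∑ m ∈ s, f m)) (ENNReal.ofReal p) volume ≤
      ENNReal.ofReal (s.card * C) *
        eLpNorm (fun z : ℂ => (∑ m ∈ s, f m) z) (ENNReal.ofReal p) volume := by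
  have hp0 : 0 < p := by linarith
  have hp' : ENNReal.ofReal p ≠ 0 := by
    rw [Ne, ENNReal.ofReal_eq_zero, not_le]; exact hp0
  have h1p : (1 : ℝ≥0∞) ≤ ENNReal.ofReal p := by
    rw [← ENNReal.ofReal_one]
    exact ENNReal.ofReal_le_ofReal (by linarith)
  rw [TS_sum]
  refine (eLpNorm_sum_le (fun m _ => (hTB n (f m)).1.aestronglyMeasurable) h1p).trans ?_
  have h2 : ∀ m ∈ s, eLpNorm (TS n (f m)) (ENNReal.ofReal p) volume ≤ ENNReal.ofReal C *
      eLpNorm (fun z : ℂ => (∑ m ∈ s, f m) z) (ENNReal.ofReal p) volume := by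
    intro m hm
    refine (hb m hm).trans ?_
    gcongr
    rw [eLpNorm_eq_lintegral_rpow_enorm_toReal hp' ENNReal.ofReal_ne_top,
      eLpNorm_eq_lintegral_rpow_enorm_toReal hp' ENNReal.ofReal_ne_top,
      ENNReal.toReal_ofReal hp0.le]
    have h3 := QQ_le m (f := fun z => (∑ j ∈ s, f j) z) (∑ j ∈ s, f j).continuous
      (P := p) (by linarith)
    have h4 : ∀ z, QQ m (fun z => (∑ j ∈ s, f j) z) z = f m z := QQ_sum s f hf m hm
    simp only [h4] at h3
    exact ENNReal.rpow_le_rpow h3 (by positivity)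
  refine (Finset.sum_le_sum h2).trans (le_of_eq ?_)
  rw [Finset.sum_const, nsmul_eq_mul, ENNReal.ofReal_mul (by positivity), ENNReal.ofReal_natCast,
    mul_assoc]

end Pool.Agent.U307.RAD.Sum3
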