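import Pool.Agent.U307.RAD.Stm2

/-!
# Project RAD, third part: all angular types `m ≠ 2 n`

Here `KU n l ≤ 13/2 n` is proved for all `n ≥ 1`, `l ≥ 1`. The kernel satisfies
`(1 - r²) uu = 2 γ (φ_{n-1} - φ_n)` with `γ = n (n + l) / (2 n + l)` and functions `φ` whose Fourier
transform in the variable `y = - 2 log r` is a Blaschke product over `k + i τ`, `k = l / 2`. Hence
`∫ |φ| dr / r` is bounded by the inequality of Carlson.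
-/

set_option autoImplicit false

open MeasureTheory Filter Topology Set
open scoped ENNReal SchwartzMap ComplexConjugate

namespace Pool.Agent.U307.RAD

noncomputable def aa (n l i : ℕ) : ℝ :=
  (-1) ^ (n - i) * ((n + l + i).factorial : ℝ) /
    (((n - i).factorial : ℝ) * ((l + i).factorial : ℝ) * (i.factorial : ℝ))

noncomputable def ph (n l : ℕ) (r : ℝ) : ℝ := ∑ i ∈ Finset.range (n + 1), aa n l i * r ^ (l + 2 * i)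

/-- `gg n l y = ph n l (exp (- y / 2))` -/
noncomputable def gg (n l : ℕ) (y : ℝ) : ℝ :=
  ∑ i ∈ Finset.range (n + 1), aa n l i * Real.exp (-(((l : ℝ) / 2 + i) * y))

noncomputable def y0 (n l : ℕ) : ℝ := ∑ i ∈ Finset.range n, 2 / ((l : ℝ) / 2 + 1 + i)

/-- the majorant of the square of the Fourier transform of `(y - y0) gg` -/
noncomputable def ww (k t : ℝ) : ℝ :=
  (2 * Real.log (1 + t ^ 2 / k ^ 2) ^ 2 + 2 / (k ^ 2 + t ^ 2)) / (k ^ 2 + t ^ 2)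

/-- CD: the kernel by the functions `ph`. -/
def S_CD : Prop := ∀ (n l : ℕ) (r : ℝ), 1 ≤ n →
  (1 - r ^ 2) * uu n l r = 2 * ((n : ℝ) * (n + l) / (2 * n + l)) * (ph (n - 1) l r - ph n l r)

/-- TR: partial fractions. -/
def S_TR : Prop := ∀ (n l : ℕ) (z : ℂ), (∀ i ∈ Finset.range (n + 1), z + (l : ℂ) / 2 + i ≠ 0) →
  ∑ i ∈ Finset.range (n + 1), (aa n l i : ℂ) / (z + (l : ℂ) / 2 + i) =
    (∏ i ∈ Finset.range n, (z - (l : ℂ) / 2 - 1 - i)) /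
      ∏ i ∈ Finset.range (n + 1), (z + (l : ℂ) / 2 + i)

/-- NRM: the norm in `L²`. -/
def S_NRM : Prop := ∀ n l : ℕ, 1 ≤ l → ∫ y in Ioi (0 : ℝ), gg n l y ^ 2 = 1 / l

/-- FT: the Fourier transform of `(y - y0) gg`. -/
def S_FT : Prop := ∀ (n l : ℕ) (t : ℝ), 1 ≤ l →
  ‖∫ y in Ioi (0 : ℝ), (((y - y0 n l) * gg n l y : ℝ) : ℂ) *
    Complex.exp (-(Complex.I * t * y))‖ ^ 2 ≤ ww ((l : ℝ) / 2) t

/-- INT: the integral of the majorant. -/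
def S_INT : Prop := ∀ k : ℝ, 0 < k → Integrable (ww k) ∧ ∫ t, ww k t ≤ 46 / k + Real.pi / k ^ 3

/-- PLA: Plancherel on the half line. -/
def S_PLA : Prop := ∀ f : ℝ → ℝ, Continuous f → IntegrableOn f (Ioi 0) →
  IntegrableOn (fun y => f y ^ 2) (Ioi 0) → ∀ F : ℝ → ℝ, Integrable F →
  (∀ t : ℝ, ‖∫ y in Ioi (0 : ℝ), ((f y : ℝ) : ℂ) * Complex.exp (-(Complex.I * t * y))‖ ^ 2 ≤ F t) →
  ∫ y in Ioi (0 : ℝ), f y ^ 2 ≤ 1 / (2 * Real.pi) * ∫ t, F t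

/-- IGR: integrability of exponential sums. -/
def S_IGR : Prop := ∀ (n l : ℕ) (c : ℝ), 1 ≤ l →
  IntegrableOn (gg n l) (Ioi 0) ∧ IntegrableOn (fun y => gg n l y ^ 2) (Ioi 0) ∧
  IntegrableOn (fun y => (y - c) * gg n l y) (Ioi 0) ∧
  IntegrableOn (fun y => ((y - c) * gg n l y) ^ 2) (Ioi 0)

/-- CAR: the inequality of Carlson. -/
def S_CAR : Prop := ∀ (g : ℝ → ℝ) (c A B : ℝ), 0 < A → 0 < B → Continuous g →
  IntegrableOn g (Ioi 0) → IntegrableOn (fun y => g y ^ 2) (Ioi 0) →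
  IntegrableOn (fun y => ((y - c) * g y) ^ 2) (Ioi 0) →
  ∫ y in Ioi (0 : ℝ), g y ^ 2 ≤ A → ∫ y in Ioi (0 : ℝ), ((y - c) * g y) ^ 2 ≤ B →
  (∫ y in Ioi (0 : ℝ), |g y|) ^ 4 ≤ 4 * Real.pi ^ 2 * (A * B)

/-- CV: change of variables. -/
def S_CV : Prop := ∀ n l : ℕ, 1 ≤ l →
  ∫ r in (0 : ℝ)..1, |ph n l r| / r = 1 / 2 * ∫ y in Ioi (0 : ℝ), |gg n l y|

/-- PB: the bound on `∫ |ph| / r`. -/
def S_PB : Prop := ∀ n l : ℕ, 1 ≤ l → (2 * ∫ r in (0 : ℝ)..1, |ph n l r| / r) ^ 4 ≤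
  4 * Real.pi ^ 2 * (1 / l * (46 / (Real.pi * l) + 4 / (l : ℝ) ^ 3))

/-- KBIG: large `n`. -/
def S_KBIG : Prop := ∀ n l : ℕ, 1 ≤ l → (l = 1 → 200 ≤ n) → (2 ≤ l → 2 * (l : ℝ) < Real.log n) →
  KU n l ≤ 13 / 2 * n

/-- KONE: `l = 1` and small `n`. -/
def S_KONE : Prop := ∀ n : ℕ, 1 ≤ n → n ≤ 220 → KU n 1 ≤ 13 / 2 * n

/-- the bound for all types `2 n + l`, `l ≥ 1` -/
def S_FIN3 : Prop := ∀ (n l : ℕ) (p : ℝ), 1 ≤ n → 1 ≤ l → 2 ≤ p →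
  ∀ f : SchwartzMap ℂ ℂ, Tm (2 * n + l) f →
  ∫⁻ z, ‖TS n f z‖ₑ ^ p ≤ ENNReal.ofReal ((13 / 2 * (n : ℝ)) ^ (1 - 2 / p)) ^ p * ∫⁻ z, ‖f z‖ₑ ^ p

end Pool.Agent.U307.RAD
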