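import Pool.Agent.U307.RAD.Typ2
import Pool.Agent.U307.RAD.Stm3

/-! Project RAD: all angular types `m ≠ 2 n`. -/

set_option autoImplicit false

open MeasureTheory Filter Topology Set
open scoped ENNReal SchwartzMap ComplexConjugate FourierTransform

namespace Pool.Agent.U307.RAD.Typ

/-- all types `m ≠ 2 n` -/
theorem all3 (hF : S_FIN) (hF2 : S_FIN3) (n : ℕ) (m : ℤ) (p : ℝ) (hn : 1 ≤ n) (hp : 2 ≤ p)
    (hm : m ≠ 2 * n)
    (f : SchwartzMap ℂ ℂ) (hf : ∀ a z : ℂ, ‖a‖ = 1 → f (a * z) = a ^ m * f z) :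
    eLpNorm (TS n f) (ENNReal.ofReal p) volume ≤
      ENNReal.ofReal ((13 / 2 * (n : ℝ)) ^ (1 - 2 / p)) *
        eLpNorm (fun z : ℂ => f z) (ENNReal.ofReal p) volume := by
  have hp0 : 0 < p := by linarith
  have hs : 0 ≤ 1 - 2 / p := by
    rw [sub_nonneg, div_le_one hp0]
    exact hp
  have hn1 : (1 : ℝ) ≤ n := by exact_mod_cast hn
  rcases le_or_gt m n with h | h
  · refine (fin hF n m p hn h hp f hf).trans ?_
    have h1 : 4 * (n : ℝ) ^ (3 / 4 : ℝ) ≤ 13 / 2 * n := by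
      have : (n : ℝ) ^ (3 / 4 : ℝ) ≤ (n : ℝ) ^ (1 : ℝ) :=
        Real.rpow_le_rpow_of_exponent_le hn1 (by norm_num)
      rw [Real.rpow_one] at this
      linarith
    have h2 : (4 * (n : ℝ) ^ (3 / 4 : ℝ)) ^ (1 - 2 / p) ≤ (13 / 2 * (n : ℝ)) ^ (1 - 2 / p) :=
      Real.rpow_le_rpow (by positivity) h1 hs
    gcongr
  · obtain ⟨k, rfl⟩ : ∃ k : ℕ, m = (k : ℤ) := ⟨m.natAbs, by omega⟩
    have hnk : n < k := by exact_mod_cast h
    have hf' : Tm k f := by
      intro a z ha
      rw [hf a z ha, zpow_natCast]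
    have hk2 : k ≠ 2 * n := by
      intro h
      exact hm (by exact_mod_cast h)
    rcases le_or_gt (2 * n) k with h3 | h3
    · obtain ⟨l, rfl⟩ : ∃ l : ℕ, k = 2 * n + l := ⟨k - 2 * n, by omega⟩
      exact to_eLp hp0 (hF2 n l p hn (by omega) hp f hf')
    · obtain ⟨l, hl⟩ : ∃ l : ℕ, 2 * n = k + l := ⟨2 * n - k, by omega⟩
      have hk : k = 2 * (k - n) + l := by omega
      have hT : Tm (2 * (k - n) + l) (fun z => cc f z) := by
        rw [← hk]
        intro a z ha
        simp only [cc_apply, map_mul]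
        rw [hf' _ _ (by rwa [RCLike.norm_conj])]
        simp
      have hkn : 1 ≤ k - n := by omega
      have hkn' : ((k - n : ℕ) : ℝ) ≤ n := by
        have : k - n ≤ n := by omega
        exact_mod_cast this
      have key := to_eLp hp0 (hF2 (k - n) l p hkn (by omega) hp (cc f) hT)
      have e1 : eLpNorm (TS n f) (ENNReal.ofReal p) volume =
          eLpNorm (TS (k - n) (cc f)) (ENNReal.ofReal p) volume := by
        refine eLpNorm_congr_norm_ae (Eventually.of_forall fun z => ?_)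
        rw [Cnj.main2 n k hnk.le f (cc f) (fun z => cc_apply f z) hf' z, RCLike.norm_conj]
      rw [e1, ← cc_norm f]
      refine key.trans ?_
      have h5 : (13 / 2 * ((k - n : ℕ) : ℝ)) ^ (1 - 2 / p) ≤ (13 / 2 * (n : ℝ)) ^ (1 - 2 / p) :=
        Real.rpow_le_rpow (by positivity) (by linarith) hs
      gcongr

end Pool.Agent.U307.RAD.Typ
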