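import Pool.Agent.U307.RAD.Main2
import Pool.Agent.U307.RAD.Asm3
import Pool.Agent.U307.RAD.Typ3
import Pool.Agent.U307.RAD.Sum3
import Pool.Agent.U94.RAD.TR
import Pool.Agent.U739.RAD.NRM
import Pool.Agent.U618.RAD.INT
import Pool.Agent.U333.RAD.PLA
import Pool.Agent.U574.RAD.IGR
import Pool.Agent.U446.RAD.CAR
import Pool.Agent.U667.RAD.CV
import Pool.Agent.U643.RAD.FT
import Pool.Agent.U901.RAD.KONE
import Pool.Agent.U283.RAD.CD
import Pool.Agent.U869.RAD.KBIG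

/-! Project RAD: all parts of the third wave together. -/

set_option autoImplicit false

open MeasureTheory Filter Topology Set
open scoped ENNReal SchwartzMap ComplexConjugate

namespace Pool.Agent.U307.RAD

theorem igr : S_IGR := Pool.Agent.U574.RAD.t_IGR
theorem tr : S_TR := Pool.Agent.U94.RAD.TR.t_TR
theorem nrm : S_NRM := Pool.Agent.U739.RAD.NRM.t_NRM tr igr
theorem ft : S_FT := Pool.Agent.U643.RAD.t_FT tr igr
theorem pb' : S_PB := pb ft Pool.Agent.U618.RAD.t_INT Pool.Agent.U333.RAD.t_PLA igr nrm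
  Pool.Agent.U446.RAD.t_CAR Pool.Agent.U667.RAD.t_CV
theorem kbig : S_KBIG := Pool.Agent.U869.RAD.KBIG.t_KBIG l1 Pool.Agent.U283.RAD.t_CD pb'
theorem kone : S_KONE := Pool.Agent.U901.RAD.KONE.t_KONE l1 eu
theorem fin3' : S_FIN3 := fin3 lq Pool.Agent.U869.RAD.L2.t_L2 Pool.Agent.U99.RAD.t_LIN
  Pool.Agent.U461.RAD.t_RT2 Pool.Agent.U690.RAD.t_SYM Pool.Agent.U690.RAD.t_TB
  Pool.Agent.U864.RAD.t_PRJ Pool.Agent.U608.RAD.SUP.t_SUP (ku3 ku kbig kone) ts2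

/-- all types `m ≠ 2 n` -/
theorem all3 (n : ℕ) (m : ℤ) (p : ℝ) (hn : 1 ≤ n) (hp : 2 ≤ p) (hm : m ≠ 2 * n)
    (f : SchwartzMap ℂ ℂ) (hf : ∀ a z : ℂ, ‖a‖ = 1 → f (a * z) = a ^ m * f z) :
    eLpNorm (TS n f) (ENNReal.ofReal p) volume ≤
      ENNReal.ofReal ((13 / 2 * (n : ℝ)) ^ (1 - 2 / p)) *
        eLpNorm (fun z : ℂ => f z) (ENNReal.ofReal p) volume :=
  Typ.all3 fin' fin3' n m p hn hp hm f hf

/-- finite sums of types `m ≠ 2 n` -/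
theorem sums3 (n : ℕ) (p : ℝ) (hn : 1 ≤ n) (hp : 2 ≤ p) (s : Finset ℤ) (hs : ∀ m ∈ s, m ≠ 2 * n)
    (f : ℤ → SchwartzMap ℂ ℂ)
    (hf : ∀ m ∈ s, ∀ a z : ℂ, ‖a‖ = 1 → f m (a * z) = a ^ m * f m z) :
    eLpNorm (TS n (∑ m ∈ s, f m)) (ENNReal.ofReal p) volume ≤
      ENNReal.ofReal (s.card * (13 / 2 * (n : ℝ)) ^ (1 - 2 / p)) *
        eLpNorm (fun z : ℂ => (∑ m ∈ s, f m) z) (ENNReal.ofReal p) volume :=
  Sum3.sums Pool.Agent.U690.RAD.t_TB n p _ hp (by positivity) s f hf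
    fun m hm => all3 n m p hn hp (hs m hm) (f m) (hf m hm)

end Pool.Agent.U307.RAD
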