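import Pool.Agent.U307.RAD.Asm
import Pool.Agent.U307.RAD.Cnj
import Pool.Agent.N892.BW.PLZ

/-! Project RAD: all angular types `m ≤ n`. -/

set_option autoImplicit false

open MeasureTheory Filter Topology Set
open scoped ENNReal SchwartzMap ComplexConjugate FourierTransform

namespace Pool.Agent.U307.RAD.Typ

theorem TS_zero (f : SchwartzMap ℂ ℂ) (z : ℂ) : TS 0 f z = f z := by
  have h1 : TS 0 f z = 𝓕 (Pool.Agent.N892.BW.PLZ.G 0 f) (-z) := Pool.Agent.N892.BW.PLZ.TS_eq 0 f z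
  have h2 : Pool.Agent.N892.BW.PLZ.G 0 f = 𝓕 (fun z : ℂ => f z) := by
    funext ξ
    unfold Pool.Agent.N892.BW.PLZ.G
    rw [pow_zero, one_mul]
  have hI : Integrable (𝓕 (fun z : ℂ => f z) : ℂ → ℂ) := by
    rw [Pool.Agent.N892.BW.PLZ.four_S]; exact (𝓕 f).integrable
  rw [h1, h2, ← Real.fourierInv_eq_fourier_neg]
  exact congrFun (Continuous.fourierInv_fourier_eq f.continuous f.integrable hI) z

/-- the Schwartz function `z ↦ f (conj z)` -/
noncomputable def cj (f : SchwartzMap ℂ ℂ) : SchwartzMap ℂ ℂ :=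
  SchwartzMap.compCLMOfContinuousLinearEquiv ℂ Complex.conjCLE f

theorem cj_apply (f : SchwartzMap ℂ ℂ) (z : ℂ) : cj f z = f (conj z) := rfl

theorem cj_norm (f : SchwartzMap ℂ ℂ) (p : ℝ≥0∞) :
    eLpNorm (fun z => cj f z) p volume = eLpNorm (fun z : ℂ => f z) p volume := by
  have h := eLpNorm_comp_measurePreserving (p := p) (g := fun z : ℂ => f z)
    f.continuous.aestronglyMeasurable (Complex.conjLIE.measurePreserving)
  exact h

theorem fin (hF : S_FIN) (n : ℕ) (m : ℤ) (p : ℝ) (hn : 1 ≤ n) (hm : m ≤ n) (hp : 2 ≤ p)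
    (f : SchwartzMap ℂ ℂ) (hf : ∀ a z : ℂ, ‖a‖ = 1 → f (a * z) = a ^ m * f z) :
    eLpNorm (TS n f) (ENNReal.ofReal p) volume ≤
      ENNReal.ofReal ((4 * (n : ℝ) ^ (3 / 4 : ℝ)) ^ (1 - 2 / p)) *
        eLpNorm (fun z : ℂ => f z) (ENNReal.ofReal p) volume := by
  have hp0 : 0 < p := by linarith
  have hs : 0 ≤ 1 - 2 / p := by
    rw [sub_nonneg, div_le_one hp0]
    exact hp
  have hn1 : (1 : ℝ) ≤ n := by exact_mod_cast hn
  rcases le_or_gt m 0 with h | h
  · obtain ⟨l, rfl⟩ : ∃ l : ℕ, m = -(l : ℤ) := ⟨m.natAbs, by omega⟩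
    refine hF n l p hn hp f fun a z ha => ?_
    rw [hf a z ha, zpow_neg, zpow_natCast, ← inv_pow]
    rw [Complex.inv_eq_conj ha]
  · obtain ⟨k, rfl⟩ : ∃ k : ℕ, m = (k : ℤ) := ⟨m.natAbs, by omega⟩
    have hk1 : 1 ≤ k := by exact_mod_cast h
    have hkn : k ≤ n := by exact_mod_cast hm
    have hf' : ∀ a z : ℂ, ‖a‖ = 1 → f (a * z) = a ^ k * f z := by
      intro a z ha
      rw [hf a z ha, zpow_natCast]
    have e1 : TS n f = TS (n - k) (cj f) := by
      funext z
      exact Cnj.main n k hkn f (cj f) (fun z => cj_apply f z) hf' z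
    rw [e1, ← cj_norm f]
    rcases hkn.eq_or_lt with h2 | h2
    · have e2 : TS (n - k) (cj f) = fun z => cj f z := by
        funext z
        rw [h2, Nat.sub_self, TS_zero]
      rw [e2]
      have h3 : (1 : ℝ) ≤ (4 * (n : ℝ) ^ (3 / 4 : ℝ)) ^ (1 - 2 / p) := by
        refine Real.one_le_rpow ?_ hs
        have : (1 : ℝ) ≤ (n : ℝ) ^ (3 / 4 : ℝ) := Real.one_le_rpow hn1 (by norm_num)
        linarith
      calc _ = 1 * eLpNorm (fun z => cj f z) (ENNReal.ofReal p) volume := (one_mul _).symm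
        _ ≤ _ := by
          gcongr
          rw [← ENNReal.ofReal_one]
          exact ENNReal.ofReal_le_ofReal h3
    · have hT : Pool.Agent.U307.RAD.Typ k (fun z => cj f z) := by
        intro a z ha
        simp only [cj_apply, map_mul]
        exact hf' _ _ (by rwa [RCLike.norm_conj])
      refine (hF (n - k) k p (by omega) hp (cj f) hT).trans ?_
      gcongr
      omega

end Pool.Agent.U307.RAD.Typ
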